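import Mathlib

set_option autoImplicit false

namespace SUB

/-- `∑_{p ≤ n} (log p)/p`. -/
noncomputable def mA (n : ℕ) : ℝ := ∑ p ∈ (Finset.Icc 1 n).filter Nat.Prime, Real.log p / p

theorem mA_le (n : ℕ) (hn : 2 ≤ n) : mA n ≤ Real.log n + Real.log 4 := by
  classical
  have hn0 : (0 : ℝ) < n := by positivity
  -- `∑_{m ≤ n} log m ≥ ∑_{p ≤ n} ⌊n/p⌋ log p`
  have h1 : ∑ p ∈ (Finset.Icc 1 n).filter Nat.Prime, ((n / p : ℕ) : ℝ) * Real.log p ≤
      ∑ m ∈ Finset.Icc 1 n, Real.log m := by
    have h2 : ∀ m ∈ Finset.Icc 1 n, ∑ p ∈ (Finset.Icc 1 n).filter Nat.Prime,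
        (if p ∣ m then Real.log p else 0) ≤ Real.log m := by
      intro m hm
      rw [Finset.mem_Icc] at hm
      rw [← Finset.sum_filter]
      have h3 : ((Finset.Icc 1 n).filter Nat.Prime).filter (fun p => p ∣ m) ⊆ m.primeFactors := by
        intro p hp
        rw [Finset.mem_filter, Finset.mem_filter] at hp
        exact Nat.mem_primeFactors.mpr ⟨hp.1.2, hp.2, by omega⟩
      calc ∑ p ∈ ((Finset.Icc 1 n).filter Nat.Prime).filter (fun p => p ∣ m), Real.log p
          ≤ ∑ p ∈ m.primeFactors, Real.log p := by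
            apply Finset.sum_le_sum_of_subset_of_nonneg h3
            intro p hp _
            exact Real.log_natCast_nonneg p
        _ = Real.log ((∏ p ∈ m.primeFactors, p : ℕ) : ℝ) := by
            rw [Nat.cast_prod, Real.log_prod]
            intro p hp
            exact_mod_cast (Nat.prime_of_mem_primeFactors hp).ne_zero
        _ ≤ Real.log m := by
            apply Real.log_le_log
            · exact_mod_cast Finset.prod_pos fun p hp => (Nat.prime_of_mem_primeFactors hp).pos
            · exact_mod_cast Nat.le_of_dvd (by omega) (Nat.prod_primeFactors_dvd m)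
    refine le_trans (le_of_eq ?_) (Finset.sum_le_sum h2)
    rw [Finset.sum_comm]
    apply Finset.sum_congr rfl
    intro p hp
    rw [Finset.mem_filter, Finset.mem_Icc] at hp
    rw [← Finset.sum_filter, Finset.sum_const, nsmul_eq_mul]
    congr 2
    have h4 := Nat.Ioc_filter_dvd_card_eq_div n p
    rw [← h4]
    congr 1
  have h5 : ∑ m ∈ Finset.Icc 1 n, Real.log m ≤ n * Real.log n := by
    have h6 : ∀ m ∈ Finset.Icc 1 n, Real.log m ≤ Real.log n := by
      intro m hm
      rw [Finset.mem_Icc] at hm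
      apply Real.log_le_log
      · exact_mod_cast hm.1
      · exact_mod_cast hm.2
    refine (Finset.sum_le_sum h6).trans (le_of_eq ?_)
    rw [Finset.sum_const, Nat.card_Icc, nsmul_eq_mul]
    simp
  have h7 : (n : ℝ) * mA n - ∑ p ∈ (Finset.Icc 1 n).filter Nat.Prime, Real.log p ≤
      ∑ p ∈ (Finset.Icc 1 n).filter Nat.Prime, ((n / p : ℕ) : ℝ) * Real.log p := by
    rw [mA, Finset.mul_sum, ← Finset.sum_sub_distrib]
    apply Finset.sum_le_sum
    intro p hp
    rw [Finset.mem_filter, Finset.mem_Icc] at hp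
    have hp0 : (0 : ℝ) < p := by exact_mod_cast hp.2.pos
    have hlog : 0 ≤ Real.log p := Real.log_natCast_nonneg p
    have h8 : (n : ℝ) / p - 1 ≤ ((n / p : ℕ) : ℝ) := by
      have h9 : (n : ℝ) / p < ((n / p : ℕ) : ℝ) + 1 := by
        rw [div_lt_iff₀ hp0]
        have := Nat.lt_div_mul_add (a := n) hp.2.pos
        have h10 : n < (n / p + 1) * p := by
          have h11 : (n / p + 1) * p = n / p * p + p := by ring
          omega
        exact_mod_cast h10
      linarith
    calc (n : ℝ) * (Real.log p / p) - Real.log p = ((n : ℝ) / p - 1) * Real.log p := by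
          field_simp
      _ ≤ _ := mul_le_mul_of_nonneg_right h8 hlog
  have h12 : ∑ p ∈ (Finset.Icc 1 n).filter Nat.Prime, Real.log p ≤ Real.log 4 * n := by
    have h13 := Chebyshev.theta_le_log4_mul_x (x := (n : ℝ)) hn0.le
    refine le_trans (le_of_eq ?_) h13
    rw [Chebyshev.theta_eq_sum_Icc]
    rw [Nat.floor_natCast]
    apply Finset.sum_subset
    · intro p hp
      rw [Finset.mem_filter, Finset.mem_Icc] at hp ⊢
      exact ⟨⟨by omega, hp.1.2⟩, hp.2⟩
    · intro p hp hp'
      exfalso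
      apply hp'
      rw [Finset.mem_filter, Finset.mem_Icc] at hp ⊢
      exact ⟨⟨hp.2.one_le, hp.1.2⟩, hp.2⟩
  have h14 : (n : ℝ) * mA n ≤ n * (Real.log n + Real.log 4) := by
    rw [mul_add]
    linarith
  exact le_of_mul_le_mul_left h14 hn0

theorem mertens_aux (n : ℕ) (hn : 2 ≤ n) :
    ∑ p ∈ (Finset.Icc 1 n).filter Nat.Prime, 1 / (p : ℝ) ≤
      mA n / Real.log n + (Real.log (Real.log n) - Real.log (Real.log 2)) +
        Real.log 4 * (1 / Real.log 2 - 1 / Real.log n) := by
  classical
  induction n, hn using Nat.le_induction with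
  | base =>
    have h1 : (Finset.Icc 1 2).filter Nat.Prime = {2} := by decide
    have h2 : (0 : ℝ) < Real.log 2 := Real.log_pos (by norm_num)
    rw [mA, h1]
    simp only [Finset.sum_singleton, Nat.cast_ofNat, sub_self, mul_zero, add_zero]
    rw [div_div, mul_comm (2 : ℝ), ← div_div, div_self h2.ne']
  | succ n hn ih =>
    have hl2 : (0 : ℝ) < Real.log 2 := Real.log_pos (by norm_num)
    have hln : (0 : ℝ) < Real.log n := Real.log_pos (by exact_mod_cast (by omega : 1 < n))
    have hln1 : (0 : ℝ) < Real.log ((n + 1 : ℕ) : ℝ) :=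
      Real.log_pos (by exact_mod_cast (by omega : 1 < n + 1))
    have hlt : Real.log n ≤ Real.log ((n + 1 : ℕ) : ℝ) :=
      Real.log_le_log (by positivity) (by exact_mod_cast Nat.le_succ n)
    set δ : ℝ := if Nat.Prime (n + 1) then 1 else 0 with hδ
    have hS : ∑ p ∈ (Finset.Icc 1 (n + 1)).filter Nat.Prime, 1 / (p : ℝ) =
        ∑ p ∈ (Finset.Icc 1 n).filter Nat.Prime, 1 / (p : ℝ) + δ * (1 / ((n + 1 : ℕ) : ℝ)) := by
      rw [Finset.sum_filter, Finset.sum_filter, Finset.sum_Icc_succ_top (by omega)]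
      congr 1
      rw [hδ]
      split_ifs <;> simp
    have hA : mA (n + 1) = mA n + δ * (Real.log ((n + 1 : ℕ) : ℝ) / ((n + 1 : ℕ) : ℝ)) := by
      rw [mA, mA, Finset.sum_filter, Finset.sum_filter, Finset.sum_Icc_succ_top (by omega)]
      congr 1
      rw [hδ]
      split_ifs <;> simp
    have hAdiv : mA (n + 1) / Real.log ((n + 1 : ℕ) : ℝ) =
        mA n / Real.log ((n + 1 : ℕ) : ℝ) + δ * (1 / ((n + 1 : ℕ) : ℝ)) := by
      rw [hA, add_div]
      congr 1
      field_simp
    rw [hS, hAdiv]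
    have hkey : mA n * (1 / Real.log n - 1 / Real.log ((n + 1 : ℕ) : ℝ)) ≤
        (Real.log (Real.log ((n + 1 : ℕ) : ℝ)) - Real.log (Real.log n)) +
          Real.log 4 * (1 / Real.log n - 1 / Real.log ((n + 1 : ℕ) : ℝ)) := by
      have hd : 0 ≤ 1 / Real.log n - 1 / Real.log ((n + 1 : ℕ) : ℝ) := by
        rw [sub_nonneg]
        exact one_div_le_one_div_of_le hln hlt
      have h3 := mul_le_mul_of_nonneg_right (mA_le n hn) hd
      have h4 : Real.log n * (1 / Real.log n - 1 / Real.log ((n + 1 : ℕ) : ℝ)) ≤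
          Real.log (Real.log ((n + 1 : ℕ) : ℝ)) - Real.log (Real.log n) := by
        have h5 : Real.log n * (1 / Real.log n - 1 / Real.log ((n + 1 : ℕ) : ℝ)) =
            1 - Real.log n / Real.log ((n + 1 : ℕ) : ℝ) := by
          field_simp
        have h6 : 0 < Real.log n / Real.log ((n + 1 : ℕ) : ℝ) := by positivity
        have h7 := Real.log_le_sub_one_of_pos h6
        rw [Real.log_div hln.ne' hln1.ne'] at h7
        rw [h5]
        linarith
      rw [add_mul] at h3
      linarith
    have h8 : mA n / Real.log n = mA n * (1 / Real.log n) := by ring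
    have h9 : mA n / Real.log ((n + 1 : ℕ) : ℝ) = mA n * (1 / Real.log ((n + 1 : ℕ) : ℝ)) := by
      ring
    rw [h8] at ih
    rw [h9]
    rw [mul_sub] at hkey
    nlinarith [ih, hkey]

theorem mertens_upper : ∃ C : ℝ, ∀ n : ℕ, 2 ≤ n →
    ∑ p ∈ (Finset.Icc 1 n).filter Nat.Prime, 1 / (p : ℝ) ≤ Real.log (Real.log n) + C := by
  have hl2 : (0 : ℝ) < Real.log 2 := Real.log_pos (by norm_num)
  refine ⟨1 + Real.log 4 / Real.log 2 - Real.log (Real.log 2) + Real.log 4 * (1 / Real.log 2),
    fun n hn => ?_⟩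
  have hln : Real.log 2 ≤ Real.log n := Real.log_le_log (by norm_num) (by exact_mod_cast hn)
  have hln0 : (0 : ℝ) < Real.log n := by linarith
  have h4 : (0 : ℝ) ≤ Real.log 4 := Real.log_nonneg (by norm_num)
  have h1 := mertens_aux n hn
  have h2 : mA n / Real.log n ≤ 1 + Real.log 4 / Real.log 2 := by
    calc mA n / Real.log n ≤ (Real.log n + Real.log 4) / Real.log n :=
          div_le_div_of_nonneg_right (mA_le n hn) hln0.le
      _ = 1 + Real.log 4 / Real.log n := by rw [add_div, div_self hln0.ne']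
      _ ≤ 1 + Real.log 4 / Real.log 2 := by
          have := div_le_div_of_nonneg_left h4 hl2 hln
          linarith
  have h3 : 0 ≤ Real.log 4 * (1 / Real.log n) := by positivity
  rw [mul_sub] at h1
  linarith

end SUB
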