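import Pool.Agent.helper23.SUB.Defs

set_option autoImplicit false

/-!
Subbarao, module SUB-FewA: `F(n) = ∑_{m ≤ n} z^ω(m)` against the logarithmic sum, `0 < z ≤ 1`.

`F(n) log n = ∑ z^ω(m) log m + ∑ z^ω(m) log (n/m)`.  The second sum is at most
`∑_{m ≤ n} log (n/m) ≤ n`.  The first: `log m = ∑_{d ∣ m} Λ(d)` (`ArithmeticFunction.vonMangoldt_sum`),
`z^ω(d e) ≤ z^ω(e)`, so it is at most `∑_{e ≤ n} z^ω(e) ψ(n/e) ≤ c n ∑_{e ≤ n} z^ω(e)/e`
(`Chebyshev.psi_le_const_mul_self`).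
-/

namespace SUB

/-- `∑_{m ≤ n} log (n/m) ≤ n`. -/
theorem fewA_sum_log (n : ℕ) (hn : 1 ≤ n) :
    ∑ m ∈ Finset.Icc 1 n, (Real.log n - Real.log m) ≤ n := by
  have hprod : ∑ m ∈ Finset.Icc 1 n, Real.log (m : ℝ) = Real.log (n.factorial : ℝ) := by
    rw [← Finset.prod_Ico_id_eq_factorial, Nat.cast_prod, Real.log_prod]
    · rfl
    · intro m hm
      have := (Finset.mem_Ico.mp hm).1
      positivity
  rw [Finset.sum_sub_distrib, hprod, Finset.sum_const, Nat.card_Icc, Nat.add_sub_cancel,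
    nsmul_eq_mul]
  have h := Real.pow_div_factorial_le_exp (x := (n : ℝ)) (by positivity) n
  have hn0 : (0 : ℝ) < n := by exact_mod_cast hn
  have hf : (0 : ℝ) < (n.factorial : ℝ) := by exact_mod_cast n.factorial_pos
  have h2 := Real.log_le_log (by positivity) h
  rw [Real.log_exp, Real.log_div (by positivity) (by positivity), Real.log_pow] at h2
  exact h2

/-- The arithmetic function `m ↦ z^ω(m)`. -/
noncomputable def fewAg (z : ℝ) : ArithmeticFunction ℝ :=
  ⟨fun m => if m = 0 then 0 else z ^ om m, by simp⟩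

theorem fewAg_apply (z : ℝ) (m : ℕ) (hm : m ≠ 0) : fewAg z m = z ^ om m := by
  show (if m = 0 then (0 : ℝ) else z ^ om m) = _
  rw [if_neg hm]

theorem fewA_log_le (z : ℝ) (hz : 0 < z) (hz1 : z ≤ 1) (m : ℕ) (hm : 1 ≤ m) :
    z ^ om m * Real.log m ≤ (fewAg z * ArithmeticFunction.vonMangoldt) m := by
  rw [← ArithmeticFunction.vonMangoldt_sum, Finset.mul_sum, ArithmeticFunction.mul_apply,
    Nat.sum_divisorsAntidiagonal' (fun a b => fewAg z a * ArithmeticFunction.vonMangoldt b)]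
  refine Finset.sum_le_sum fun d hd => ?_
  have hdm := Nat.dvd_of_mem_divisors hd
  have hd0 : 0 < d := Nat.pos_of_mem_divisors hd
  have he0 : m / d ≠ 0 := (Nat.div_pos (Nat.le_of_dvd hm hdm) hd0).ne'
  rw [fewAg_apply z _ he0]
  refine mul_le_mul_of_nonneg_right ?_ ArithmeticFunction.vonMangoldt_nonneg
  refine pow_le_pow_of_le_one hz.le hz1 ?_
  exact Finset.card_le_card (Nat.primeFactors_mono (Nat.div_dvd_of_dvd hdm) (by omega))

theorem fewA : ∃ c : ℝ, 0 < c ∧ ∀ z : ℝ, 0 < z → z ≤ 1 → ∀ n : ℕ, 2 ≤ n →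
    (∑ m ∈ Finset.Icc 1 n, z ^ om m) * Real.log n ≤
      n + c * n * ∑ m ∈ Finset.Icc 1 n, z ^ om m / (m : ℝ) := by
  have hc : (0 : ℝ) < Real.log 4 + 4 := by
    have := Real.log_nonneg (x := 4) (by norm_num)
    linarith
  refine ⟨Real.log 4 + 4, hc, ?_⟩
  intro z hz hz1 n hn
  have h1 : (∑ m ∈ Finset.Icc 1 n, z ^ om m) * Real.log n =
      ∑ m ∈ Finset.Icc 1 n, z ^ om m * Real.log m +
        ∑ m ∈ Finset.Icc 1 n, z ^ om m * (Real.log n - Real.log m) := by
    rw [← Finset.sum_add_distrib, Finset.sum_mul]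
    exact Finset.sum_congr rfl fun m _ => by ring
  have h2 : ∑ m ∈ Finset.Icc 1 n, z ^ om m * (Real.log n - Real.log m) ≤ n := by
    refine le_trans (Finset.sum_le_sum fun m hm => ?_) (fewA_sum_log n (by omega))
    obtain ⟨hm1, hm2⟩ := Finset.mem_Icc.mp hm
    have hlog : Real.log (m : ℝ) ≤ Real.log n :=
      Real.log_le_log (by exact_mod_cast hm1) (by exact_mod_cast hm2)
    have hp : z ^ om m ≤ 1 := pow_le_one₀ hz.le hz1
    nlinarith
  have h3 : ∑ m ∈ Finset.Icc 1 n, z ^ om m * Real.log m ≤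
      (Real.log 4 + 4) * n * ∑ m ∈ Finset.Icc 1 n, z ^ om m / (m : ℝ) := by
    calc ∑ m ∈ Finset.Icc 1 n, z ^ om m * Real.log m
        ≤ ∑ m ∈ Finset.Icc 1 n, (fewAg z * ArithmeticFunction.vonMangoldt) m :=
          Finset.sum_le_sum fun m hm => fewA_log_le z hz hz1 m (Finset.mem_Icc.mp hm).1
      _ = ∑ m ∈ Finset.Ioc 0 n, (fewAg z * ArithmeticFunction.vonMangoldt) m := rfl
      _ = ∑ e ∈ Finset.Ioc 0 n, fewAg z e *
            ∑ d ∈ Finset.Ioc 0 (n / e), ArithmeticFunction.vonMangoldt d :=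
          ArithmeticFunction.sum_Ioc_mul_eq_sum_sum _ _ _
      _ ≤ ∑ e ∈ Finset.Ioc 0 n, (Real.log 4 + 4) * n * (z ^ om e / (e : ℝ)) := by
          refine Finset.sum_le_sum fun e he => ?_
          obtain ⟨he1, he2⟩ := Finset.mem_Ioc.mp he
          rw [fewAg_apply z e he1.ne']
          have hpsi : ∑ d ∈ Finset.Ioc 0 (n / e), ArithmeticFunction.vonMangoldt d ≤
              (Real.log 4 + 4) * (n / e : ℝ) := by
            have h := Chebyshev.psi_le_const_mul_self (x := ((n / e : ℕ) : ℝ)) (by positivity)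
            rw [Chebyshev.psi, Nat.floor_natCast] at h
            refine h.trans (mul_le_mul_of_nonneg_left ?_ hc.le)
            exact Nat.cast_div_le
          have hp : 0 ≤ z ^ om e := by positivity
          calc z ^ om e * ∑ d ∈ Finset.Ioc 0 (n / e), ArithmeticFunction.vonMangoldt d
              ≤ z ^ om e * ((Real.log 4 + 4) * (n / e : ℝ)) :=
                mul_le_mul_of_nonneg_left hpsi hp
            _ = (Real.log 4 + 4) * n * (z ^ om e / (e : ℝ)) := by ring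
      _ = (Real.log 4 + 4) * n * ∑ m ∈ Finset.Icc 1 n, z ^ om m / (m : ℝ) := by
          rw [Finset.mul_sum]
          rfl
  rw [h1]
  linarith

end SUB
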