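import Pool.Agent.helper23.SUB.Defs

set_option autoImplicit false

/-!
Subbarao, module SUB-FewB: the Euler product bound, `0 < z`.

`∑_{m ≤ n} z^ω(m)/m ≤ ∏_{p ≤ n} (1 + z/(p - 1)) ≤ exp (z ∑_{p ≤ n} 1/(p - 1)) ≤ exp (z (2 + ∑_{p ≤ n} 1/p))`,
as `1/(p-1) = 1/p + 1/(p(p-1))` and `∑ 1/(m(m-1)) = 1`.  The first inequality is
`EulerProduct.summable_and_hasSum_smoothNumbers_prod_primesBelow_tsum`.
-/

namespace SUB

/-- The multiplicative function `z^ω(m)/m`. -/
noncomputable def fbF (z : ℝ) (m : ℕ) : ℝ := z ^ om m / (m : ℝ)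

theorem fbF_one (z : ℝ) : fbF z 1 = 1 := by
  simp [fbF, om]

theorem fbF_mul (z : ℝ) {m n : ℕ} (h : Nat.Coprime m n) : fbF z (m * n) = fbF z m * fbF z n := by
  have hom : om (m * n) = om m + om n := by
    unfold om
    rw [h.primeFactors_mul, Finset.card_union_of_disjoint h.disjoint_primeFactors]
  unfold fbF
  rw [hom, pow_add]
  push_cast
  rw [mul_div_mul_comm]

theorem fbF_pow (z : ℝ) {p : ℕ} (hp : p.Prime) (k : ℕ) :
    fbF z (p ^ (k + 1)) = z * (1 / (p : ℝ)) ^ (k + 1) := by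
  have hom : om (p ^ (k + 1)) = 1 := by
    unfold om
    rw [Nat.primeFactors_prime_pow (Nat.succ_ne_zero k) hp]
    simp
  unfold fbF
  rw [hom, pow_one]
  push_cast
  rw [one_div, inv_pow, div_eq_mul_inv]

theorem fb_inv_lt {p : ℕ} (hp : p.Prime) : (1 / (p : ℝ)) < 1 := by
  have h1 : (1 : ℝ) < p := by exact_mod_cast hp.one_lt
  rw [div_lt_one (by linarith)]
  exact h1

theorem fb_hasSum (z : ℝ) {p : ℕ} (hp : p.Prime) :
    HasSum (fun k : ℕ => fbF z (p ^ k)) (1 + z / ((p : ℝ) - 1)) := by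
  have h1 : (1 : ℝ) < p := by exact_mod_cast hp.one_lt
  have h0 : 0 ≤ 1 / (p : ℝ) := by positivity
  have hg := (hasSum_geometric_of_lt_one h0 (fb_inv_lt hp)).mul_left (z * (1 / (p : ℝ)))
  have h2 : HasSum (fun k : ℕ => fbF z (p ^ (k + 1))) (z / ((p : ℝ) - 1)) := by
    have e1 : (fun k : ℕ => fbF z (p ^ (k + 1))) =
        fun k : ℕ => z * (1 / (p : ℝ)) * (1 / (p : ℝ)) ^ k := by
      funext k
      rw [fbF_pow z hp k, pow_succ]
      ring
    have e2 : z / ((p : ℝ) - 1) = z * (1 / (p : ℝ)) * (1 - 1 / (p : ℝ))⁻¹ := by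
      have hp0 : (p : ℝ) ≠ 0 := by linarith
      have hp1 : (p : ℝ) - 1 ≠ 0 := by linarith
      have hq : 1 - 1 / (p : ℝ) = ((p : ℝ) - 1) / p := by field_simp
      rw [hq, inv_div]
      field_simp
    rw [e1, e2]
    exact hg
  have e3 : (1 + z / ((p : ℝ) - 1)) - ∑ i ∈ Finset.range 1, fbF z (p ^ i) = z / ((p : ℝ) - 1) := by
    simp [fbF_one]
  rw [← e3] at h2
  exact (hasSum_nat_add_iff' (f := fun k : ℕ => fbF z (p ^ k)) 1).mp h2

theorem fbF_nonneg (z : ℝ) (hz : 0 < z) (m : ℕ) : 0 ≤ fbF z m := by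
  unfold fbF
  positivity

theorem fb_tele (n : ℕ) : ∑ m ∈ Finset.Icc 2 n, 1 / ((m : ℝ) * ((m : ℝ) - 1)) ≤ 1 := by
  have key : ∀ k : ℕ, ∑ m ∈ Finset.Icc 2 (k + 1), 1 / ((m : ℝ) * ((m : ℝ) - 1)) =
      1 - 1 / ((k : ℝ) + 1) := by
    intro k
    induction k with
    | zero => simp
    | succ k ih =>
      rw [Finset.sum_Icc_succ_top (by omega), ih]
      push_cast
      have h1 : (k : ℝ) + 1 ≠ 0 := by positivity
      have h2 : (k : ℝ) + 1 + 1 ≠ 0 := by positivity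
      have h3 : (k : ℝ) + 1 + 1 - 1 = (k : ℝ) + 1 := by ring
      rw [h3]
      field_simp
      ring
  rcases Nat.eq_zero_or_pos n with h | h
  · subst h; simp
  · obtain ⟨k, rfl⟩ : ∃ k, n = k + 1 := ⟨n - 1, by omega⟩
    rw [key k]
    have : 0 ≤ 1 / ((k : ℝ) + 1) := by positivity
    linarith

theorem fewB (z : ℝ) (hz : 0 < z) (n : ℕ) (hn : 1 ≤ n) :
    ∑ m ∈ Finset.Icc 1 n, z ^ om m / (m : ℝ) ≤
      Real.exp (z * (2 + ∑ p ∈ (Finset.Icc 1 n).filter Nat.Prime, 1 / (p : ℝ))) := by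
  have hS := EulerProduct.summable_and_hasSum_smoothNumbers_prod_primesBelow_tsum
    (f := fbF z) (fbF_one z) (fun {m n} h => fbF_mul z h)
    (fun {p} hp => by
      have h := (fb_hasSum z hp).summable
      have e : (fun k : ℕ => ‖fbF z (p ^ k)‖) = fun k : ℕ => fbF z (p ^ k) := by
        funext k
        exact Real.norm_of_nonneg (fbF_nonneg z hz _)
      rw [e]
      exact h) (n + 1)
  have hsum := hS.2
  -- the finite sum is at most the sum over smooth numbers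
  have h1 : ∑ m ∈ Finset.Icc 1 n, fbF z m ≤
      ∏ p ∈ (n + 1).primesBelow, ∑' k : ℕ, fbF z (p ^ k) := by
    have hmem : ∀ m ∈ Finset.Icc 1 n, m ∈ (n + 1).smoothNumbers := by
      intro m hm
      rw [Finset.mem_Icc] at hm
      exact Nat.mem_smoothNumbers_of_lt (by omega) (by omega)
    have e1 : ∑ m ∈ Finset.Icc 1 n, fbF z m =
        ∑ m ∈ (Finset.Icc 1 n).attach.map
          ⟨fun x => (⟨x.1, hmem x.1 x.2⟩ : (n + 1).smoothNumbers), fun a b hab => by
            apply Subtype.ext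
            simpa using hab⟩, fbF z (m : ℕ) := by
      rw [Finset.sum_map]
      simp only [Function.Embedding.coeFn_mk]
      exact (Finset.sum_attach (Finset.Icc 1 n) (fun m => fbF z m)).symm
    rw [e1]
    exact sum_le_hasSum _ (fun m _ => fbF_nonneg z hz _) hsum
  have h2 : ∏ p ∈ (n + 1).primesBelow, ∑' k : ℕ, fbF z (p ^ k) ≤
      ∏ p ∈ (n + 1).primesBelow, Real.exp (z / ((p : ℝ) - 1)) := by
    apply Finset.prod_le_prod
    · intro p _
      exact tsum_nonneg (fun k => fbF_nonneg z hz _)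
    · intro p hp
      have hpp : p.Prime := Nat.prime_of_mem_primesBelow hp
      rw [(fb_hasSum z hpp).tsum_eq, add_comm]
      exact Real.add_one_le_exp _
  rw [← Real.exp_sum] at h2
  have hset : (n + 1).primesBelow = (Finset.Icc 1 n).filter Nat.Prime := by
    ext p
    rw [Nat.mem_primesBelow, Finset.mem_filter, Finset.mem_Icc]
    constructor
    · rintro ⟨a, b⟩
      exact ⟨⟨b.one_lt.le, by omega⟩, b⟩
    · rintro ⟨⟨a, b⟩, c⟩
      exact ⟨by omega, c⟩
  have h3 : ∑ p ∈ (n + 1).primesBelow, z / ((p : ℝ) - 1) ≤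
      z * (2 + ∑ p ∈ (Finset.Icc 1 n).filter Nat.Prime, 1 / (p : ℝ)) := by
    rw [hset]
    have e : ∀ p ∈ (Finset.Icc 1 n).filter Nat.Prime, z / ((p : ℝ) - 1) =
        z * (1 / (p : ℝ)) + z * (1 / ((p : ℝ) * ((p : ℝ) - 1))) := by
      intro p hp
      rw [Finset.mem_filter] at hp
      have h1 : (1 : ℝ) < p := by exact_mod_cast hp.2.one_lt
      have hp0 : (p : ℝ) ≠ 0 := by linarith
      have hp1 : (p : ℝ) - 1 ≠ 0 := by linarith
      field_simp
      ring
    rw [Finset.sum_congr rfl e, Finset.sum_add_distrib, ← Finset.mul_sum, ← Finset.mul_sum]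
    have h4 : ∑ p ∈ (Finset.Icc 1 n).filter Nat.Prime, 1 / ((p : ℝ) * ((p : ℝ) - 1)) ≤ 1 := by
      refine le_trans ?_ (fb_tele n)
      apply Finset.sum_le_sum_of_subset_of_nonneg
      · intro p hp
        rw [Finset.mem_filter, Finset.mem_Icc] at hp
        rw [Finset.mem_Icc]
        exact ⟨hp.2.two_le, hp.1.2⟩
      · intro m hm _
        rw [Finset.mem_Icc] at hm
        have h2 : (2 : ℝ) ≤ m := by exact_mod_cast hm.1
        have h5 : 0 ≤ (m : ℝ) * ((m : ℝ) - 1) := by nlinarith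
        exact div_nonneg zero_le_one h5
    nlinarith [h4, hz]
  calc ∑ m ∈ Finset.Icc 1 n, z ^ om m / (m : ℝ) = ∑ m ∈ Finset.Icc 1 n, fbF z m := rfl
    _ ≤ _ := h1
    _ ≤ _ := h2
    _ ≤ _ := Real.exp_le_exp.mpr h3

end SUB
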