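import Pool.Agent.helper23.SUB.Mertens
import Pool.Agent.helper23.SUB.FewA
import Pool.Agent.helper23.SUB.FewB

set_option autoImplicit false

/-!
Subbarao, module SUB-Few: integers with few prime factors (helper92).

From `fewA`, `fewB`, `mertens_upper`: `F(n) log n ≤ n + c n exp (z (2 + C + log log n)) ≤ K n (log n)^z`;
and `#{m ≤ n : ω(m) < s} z^s ≤ F(n)` for `0 < z ≤ 1`.
-/

namespace SUB

theorem few (z : ℝ) (hz : 0 < z) (hz1 : z ≤ 1) : ∃ K : ℝ, 0 < K ∧ ∀ n s : ℕ, 2 ≤ n →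
    (((Finset.Icc 1 n).filter (fun m => om m < s)).card : ℝ) * z ^ s ≤
      K * n * Real.log n ^ (z - 1) := by
  obtain ⟨C, hC⟩ := mertens_upper
  obtain ⟨c, hc, hA⟩ := fewA
  have hl2 : 0 < Real.log 2 := Real.log_pos one_lt_two
  refine ⟨(Real.log 2 ^ z)⁻¹ + c * Real.exp (z * (2 + C)), by positivity, fun n s hn => ?_⟩
  have hn2 : (2 : ℝ) ≤ n := by exact_mod_cast hn
  have hn0 : (0 : ℝ) < n := by linarith
  have hL2 : Real.log 2 ≤ Real.log n := Real.log_le_log two_pos hn2
  have hL : 0 < Real.log n := hl2.trans_le hL2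
  have hLz : 0 < Real.log n ^ z := Real.rpow_pos_of_pos hL z
  -- the count against `F`
  have h1 : (((Finset.Icc 1 n).filter (fun m => om m < s)).card : ℝ) * z ^ s ≤
      ∑ m ∈ Finset.Icc 1 n, z ^ om m := by
    calc (((Finset.Icc 1 n).filter (fun m => om m < s)).card : ℝ) * z ^ s
        = ∑ _m ∈ (Finset.Icc 1 n).filter (fun m => om m < s), z ^ s := by
          rw [Finset.sum_const, nsmul_eq_mul]
      _ ≤ ∑ m ∈ (Finset.Icc 1 n).filter (fun m => om m < s), z ^ om m := by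
          refine Finset.sum_le_sum fun m hm => ?_
          exact pow_le_pow_of_le_one hz.le hz1 (Finset.mem_filter.1 hm).2.le
      _ ≤ ∑ m ∈ Finset.Icc 1 n, z ^ om m :=
          Finset.sum_le_sum_of_subset_of_nonneg (Finset.filter_subset _ _)
            (fun m _ _ => by positivity)
  -- the logarithmic sum
  have h2 : ∑ m ∈ Finset.Icc 1 n, z ^ om m / (m : ℝ) ≤
      Real.exp (z * (2 + C)) * Real.log n ^ z := by
    refine (fewB z hz n (by omega)).trans ?_
    rw [Real.rpow_def_of_pos hL, ← Real.exp_add]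
    refine Real.exp_le_exp.2 ?_
    have := mul_le_mul_of_nonneg_left (hC n hn) hz.le
    nlinarith
  have h3 : (1 : ℝ) ≤ (Real.log 2 ^ z)⁻¹ * Real.log n ^ z := by
    have h4 : 0 < Real.log 2 ^ z := Real.rpow_pos_of_pos hl2 z
    rw [inv_mul_eq_div, le_div_iff₀ h4, one_mul]
    exact Real.rpow_le_rpow hl2.le hL2 hz.le
  have h5 : (∑ m ∈ Finset.Icc 1 n, z ^ om m) * Real.log n ≤
      ((Real.log 2 ^ z)⁻¹ + c * Real.exp (z * (2 + C))) * n * Real.log n ^ z := by
    refine (hA z hz hz1 n hn).trans ?_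
    have h6 := mul_le_mul_of_nonneg_left h2 (by positivity : (0 : ℝ) ≤ c * n)
    have h7 := mul_le_mul_of_nonneg_left h3 hn0.le
    nlinarith
  have h8 : Real.log n ^ (z - 1) = Real.log n ^ z / Real.log n := by
    rw [Real.rpow_sub hL, Real.rpow_one]
  rw [h8, mul_div_assoc', le_div_iff₀ hL]
  exact (mul_le_mul_of_nonneg_right h1 hL.le).trans h5

end SUB
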