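import Pool.Agent.helper23.SUB.Block
import Pool.Agent.helper23.SUB.Few

set_option autoImplicit false

/-!
Subbarao, module SUB-Final: the bound `√x / (log x)^(1/8)`.

`block_real`.  `c = z = 37/100`.  For large `x` put `s = ⌊c log log x⌋₊`, `U = 2^s`, `T = Nat.sqrt (x / U)`,
`R = Nat.log 2 x`, `w = 6 * Nat.clog 2 (R + 1) = O(log log x)`.  `block` and `few` (`z = 37/100`) bound the number by
`O(log log x) √x U^(-1/2) + O((log log x)^2) z^(-s) √x U^(1/2) (log x)^(z - 1)`, where `U ≥ (log x)^(c log 2) / 2`,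
`U ≤ (log x)^(c log 2)`, `z^(-s) ≤ (log x)^(c log (1/z))`.  Exponents: `- c (log 2)/2 < -0.128 < -1/8`, and
`c (log 2)/2 + c log (1/z) + z - 1 ≤ 0.1283 + 0.37 + 0.37 - 1 < -1/8` (`log (100/37) ≤ 1`).

`final`.  Put `N(x)` for the number in the block `(x/2, x]`: `N(x) ≤ C √x / (log x)^(1/8)` for `x ≥ x₀`.
`F(x) ≤ F(⌊x/2⌋) + N(x)`; induction on `x` with `F(x) ≤ C' √x / (log x)^(1/8)`, using
`(log (x/2))^(-1/8) ≤ 1.1 (log x)^(-1/8)`, `1.1/√2 < 0.8` and `C' ≥ 5 C`, `C'` large for the start.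
-/

namespace SUB

theorem Final_s1 (L : ℝ) (hL : 1 ≤ L) :
    (⌊(0.37 : ℝ) * Real.log L⌋₊ : ℝ) ≤ 0.37 * Real.log L :=
  Nat.floor_le (mul_nonneg (by norm_num) (Real.log_nonneg hL))

theorem Final_s2 (L : ℝ) (hL : 1 ≤ L) :
    (2 : ℝ) ^ ⌊(0.37 : ℝ) * Real.log L⌋₊ ≤ L ^ ((0.37 : ℝ) * Real.log 2) := by
  have h := Final_s1 L hL
  have h2 : 0 < Real.log 2 := Real.log_pos (by norm_num)
  rw [← Real.rpow_natCast, Real.rpow_def_of_pos (by norm_num), Real.rpow_def_of_pos (by linarith)]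
  apply Real.exp_le_exp.mpr
  nlinarith [mul_le_mul_of_nonneg_left h h2.le]

theorem Final_s3 (L : ℝ) (hL : 1 ≤ L) :
    L ^ ((0.37 : ℝ) * Real.log 2) ≤ 2 * (2 : ℝ) ^ ⌊(0.37 : ℝ) * Real.log L⌋₊ := by
  have h := (Nat.lt_floor_add_one ((0.37 : ℝ) * Real.log L)).le
  have h2 : 0 < Real.log 2 := Real.log_pos (by norm_num)
  have e : 2 * (2 : ℝ) ^ ⌊(0.37 : ℝ) * Real.log L⌋₊ = (2 : ℝ) ^ (⌊(0.37 : ℝ) * Real.log L⌋₊ + 1) := by
    rw [pow_succ]; ring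
  rw [e, ← Real.rpow_natCast, Real.rpow_def_of_pos (by linarith), Real.rpow_def_of_pos (by norm_num)]
  apply Real.exp_le_exp.mpr
  push_cast
  nlinarith [mul_le_mul_of_nonneg_left h h2.le]

theorem Final_s4 (L : ℝ) (hL : 1 ≤ L) :
    1 ≤ L ^ (0.37 : ℝ) * (0.37 : ℝ) ^ ⌊(0.37 : ℝ) * Real.log L⌋₊ := by
  have h := Final_s1 L hL
  have h2 : -1 ≤ Real.log 0.37 := by
    rw [Real.le_log_iff_exp_le (by norm_num)]
    have := Real.exp_neg_one_lt_d9
    linarith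
  have h3 : (0 : ℝ) ≤ (⌊(0.37 : ℝ) * Real.log L⌋₊ : ℝ) := Nat.cast_nonneg _
  rw [← Real.rpow_natCast, Real.rpow_def_of_pos (by linarith), Real.rpow_def_of_pos (by norm_num),
    ← Real.exp_add]
  apply Real.one_le_exp
  nlinarith [mul_le_mul_of_nonneg_right h2 h3]

theorem Final_R1 (x : ℕ) (hx : 3 ≤ x) : (Nat.log 2 x : ℝ) ≤ 2 * Real.log x := by
  have h1 : 2 ^ Nat.log 2 x ≤ x := Nat.pow_log_le_self 2 (by omega)
  have h2 : ((2 : ℝ) ^ Nat.log 2 x) ≤ (x : ℝ) := by exact_mod_cast h1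
  have h3 := Real.log_le_log (by positivity) h2
  rw [Real.log_pow] at h3
  have h4 := Real.log_two_gt_d9
  have h5 : (0 : ℝ) ≤ (Nat.log 2 x : ℝ) := Nat.cast_nonneg _
  nlinarith

theorem Final_R2 (x : ℕ) : Real.log x ≤ (Nat.log 2 x + 1 : ℝ) * Real.log 2 := by
  rcases Nat.eq_zero_or_pos x with h0 | h0
  · subst h0
    simp [Real.log_nonneg]
  have h1 : x < 2 ^ (Nat.log 2 x + 1) := Nat.lt_pow_succ_log_self (by norm_num) x
  have h2 : (x : ℝ) ≤ (2 : ℝ) ^ (Nat.log 2 x + 1) := by exact_mod_cast h1.le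
  have h3 := Real.log_le_log (by exact_mod_cast h0) h2
  rw [Real.log_pow] at h3
  push_cast at h3
  exact h3

theorem Final_L1 (x : ℕ) (hx : 3 ≤ x) : 1 ≤ Real.log x := by
  have h : (3 : ℝ) ≤ x := by exact_mod_cast hx
  rw [Real.le_log_iff_exp_le (by linarith)]
  have := Real.exp_one_lt_d9
  linarith

theorem Final_w (x : ℕ) (hx : 3 ≤ x) :
    ((6 * Nat.clog 2 (Nat.log 2 x + 1) : ℕ) : ℝ) ≤ 30 + 12 * Real.log (Real.log x) := by
  have hL := Final_L1 x hx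
  have hR := Final_R1 x hx
  have hR1 : 1 ≤ Nat.log 2 x := Nat.log_pos (by norm_num) (by omega)
  have h1 : 2 ^ (Nat.clog 2 (Nat.log 2 x + 1)).pred < Nat.log 2 x + 1 :=
    Nat.pow_pred_clog_lt_self (by norm_num) (by omega)
  have h2 : ((2 : ℝ) ^ (Nat.clog 2 (Nat.log 2 x + 1)).pred) ≤ 3 * Real.log x := by
    have : ((2 : ℝ) ^ (Nat.clog 2 (Nat.log 2 x + 1)).pred) ≤ (Nat.log 2 x + 1 : ℝ) := by
      exact_mod_cast h1.le
    linarith
  have h3 := Real.log_le_log (by positivity) h2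
  rw [Real.log_pow, Real.log_mul (by norm_num) (by linarith)] at h3
  have h4 : Real.log 3 ≤ 2 := by
    have := Real.log_le_sub_one_of_pos (x := 3) (by norm_num)
    linarith
  have h5 := Real.log_two_gt_d9
  have h6 : (0 : ℝ) ≤ ((Nat.clog 2 (Nat.log 2 x + 1)).pred : ℝ) := Nat.cast_nonneg _
  have h7 : ((Nat.clog 2 (Nat.log 2 x + 1)).pred : ℝ) ≤ 4 + 2 * Real.log (Real.log x) := by
    nlinarith
  have h8 : ((Nat.clog 2 (Nat.log 2 x + 1) : ℕ) : ℝ) ≤ ((Nat.clog 2 (Nat.log 2 x + 1)).pred : ℝ) + 1 := by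
    have : Nat.clog 2 (Nat.log 2 x + 1) ≤ (Nat.clog 2 (Nat.log 2 x + 1)).pred + 1 := by
      rw [Nat.pred_eq_sub_one]; omega
    exact_mod_cast this
  push_cast
  linarith

theorem Final_sq (a b : ℝ) (hb : 0 ≤ b) (h : a ^ 2 ≤ b ^ 2) : a ≤ b := by
  nlinarith [abs_le_of_sq_le_sq' h hb]

open Classical in
theorem block_real : ∃ C : ℝ, 0 < C ∧ ∃ x₀ : ℕ, ∀ x : ℕ, x₀ ≤ x →
    (((Finset.Icc 1 x).filter (fun n => n ∈ Exc ∧ x < 2 * n)).card : ℝ) ≤
      C * Real.sqrt x / Real.log x ^ (1 / 8 : ℝ) := by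
  obtain ⟨K, hK, hfew⟩ := few 0.37 (by norm_num) (by norm_num)
  refine ⟨2309894 + 1481 * K * (16 * 12030) * 2, by positivity, 3, fun x hx => ?_⟩
  have hxr : (3 : ℝ) ≤ x := by exact_mod_cast hx
  have hL1 := Final_L1 x hx
  have hwb := Final_w x hx
  have hR1 := Final_R1 x hx
  have hR2 := Final_R2 x
  have hRpos : 1 ≤ Nat.log 2 x := Nat.log_pos (by norm_num) (by omega)
  obtain ⟨L, hL⟩ : ∃ L, L = Real.log x := ⟨_, rfl⟩
  rw [← hL] at hL1 hwb hR1 hR2 ⊢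
  have hL0 : 0 < L := by linarith
  have hs1 := Final_s1 L hL1
  have hs2 := Final_s2 L hL1
  have hs3 := Final_s3 L hL1
  have hs4 := Final_s4 L hL1
  obtain ⟨s, hs⟩ : ∃ s, s = ⌊(0.37 : ℝ) * Real.log L⌋₊ := ⟨_, rfl⟩
  rw [← hs] at hs1 hs2 hs3 hs4
  obtain ⟨R, hR⟩ : ∃ R, R = Nat.log 2 x := ⟨_, rfl⟩
  rw [← hR] at hwb hR1 hR2 hRpos
  obtain ⟨w, hw⟩ : ∃ w, w = 6 * Nat.clog 2 (R + 1) := ⟨_, rfl⟩
  rw [← hw] at hwb
  obtain ⟨T, hT⟩ : ∃ T, T = Nat.sqrt (x / 2 ^ s) := ⟨_, rfl⟩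
  have hlog2a := Real.log_two_gt_d9
  have hlog2b := Real.log_two_lt_d9
  -- the size of `U`
  have hUL : (2 : ℝ) ^ s ≤ L := by
    refine hs2.trans ?_
    calc L ^ ((0.37 : ℝ) * Real.log 2) ≤ L ^ (1 : ℝ) :=
          Real.rpow_le_rpow_of_exponent_le hL1 (by linarith)
      _ = L := Real.rpow_one L
  have hLx : L ≤ x := by
    rw [hL]; exact (Real.log_le_sub_one_of_pos (by linarith)).trans (by linarith)
  have hUx : 2 ^ s ≤ x := by
    have : (2 : ℝ) ^ s ≤ (x : ℝ) := hUL.trans hLx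
    exact_mod_cast this
  have hq : 1 ≤ x / 2 ^ s := (Nat.one_le_div_iff (by positivity)).mpr hUx
  have hT1 : 1 ≤ T := by
    rw [hT]; exact Nat.sqrt_pos.mpr hq
  have hTa : T ^ 2 ≤ x / 2 ^ s := by rw [hT]; exact Nat.sqrt_le' _
  have hTb : x / 2 ^ s < (T + 1) ^ 2 := by rw [hT]; exact Nat.lt_succ_sqrt' _
  have h1 : 2 ^ s * T ^ 2 ≤ x :=
    (Nat.mul_le_mul_left _ hTa).trans (Nat.mul_div_le x (2 ^ s))
  have h2 : x ≤ 4 * (2 ^ s * T ^ 2) := by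
    have e1 : x < 2 ^ s * (x / 2 ^ s + 1) := by
      have := Nat.div_add_mod x (2 ^ s)
      have := Nat.mod_lt x (show 0 < 2 ^ s by positivity)
      nlinarith
    have e2 : x / 2 ^ s + 1 ≤ 4 * T ^ 2 := by nlinarith
    have e3 := Nat.mul_le_mul_left (2 ^ s) e2
    nlinarith
  have hTx2 : T ^ 2 ≤ x := by
    have : 1 ≤ 2 ^ s := Nat.one_le_two_pow
    nlinarith
  have hTx : 2 * T ≤ x := by
    rcases Nat.lt_or_ge T 2 with h | h
    · omega
    · nlinarith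
  have hRom : ∀ n : ℕ, 1 ≤ n → n ≤ x → om n ≤ R := by
    intro n hn1 hn2
    rw [hR]
    exact Nat.le_log_of_pow_le (by norm_num) ((two_pow_om_le n (by omega)).trans hn2)
  have hLR : L ≤ R + 1 := by
    have : (0 : ℝ) ≤ R := Nat.cast_nonneg _
    nlinarith
  have hsR : 2 ^ s ≤ R + 1 := by
    have : (2 : ℝ) ^ s ≤ (R : ℝ) + 1 := hUL.trans hLR
    exact_mod_cast this
  have hcl : R + 1 ≤ 2 ^ Nat.clog 2 (R + 1) := Nat.le_pow_clog (by norm_num) _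
  have hw6 : (R + 1) ^ 6 ≤ 2 ^ w := by
    rw [hw, mul_comm, pow_mul]
    exact Nat.pow_le_pow_left hcl 6
  have hclpos : 1 ≤ Nat.clog 2 (R + 1) := Nat.clog_pos (by norm_num) (by omega)
  have hw1 : 6 ≤ w := by rw [hw]; omega
  have hTr1 : (1 : ℝ) ≤ T := by exact_mod_cast hT1
  have hlogT : 1 + Real.log T ≤ R + 1 := by
    have e1 : ((T : ℝ) ^ 2) ≤ x := by exact_mod_cast hTx2
    have e2 := Real.log_le_log (by positivity) e1
    rw [Real.log_pow] at e2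
    push_cast at e2
    have : (1 : ℝ) ≤ R := by exact_mod_cast hRpos
    nlinarith
  have hblock := block x T s w R hT1 h1 h2 hTx hRom hsR hw6 hlogT
  obtain ⟨N, hN⟩ : ∃ N, N = 16 * w * 2 ^ s * T := ⟨_, rfl⟩
  rw [← hN] at hblock
  have hN2 : 2 ≤ N := by
    have : 1 ≤ 2 ^ s := Nat.one_le_two_pow
    have a1 : 1 ≤ 2 ^ s * T := Nat.one_le_iff_ne_zero.mpr (by positivity)
    have a2 : N = (16 * w) * (2 ^ s * T) := by rw [hN]; ring
    nlinarith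
  have hf := hfew N s hN2
  -- real quantities
  obtain ⟨X, hX⟩ : ∃ X, X = Real.sqrt x := ⟨_, rfl⟩
  have hX0 : 0 ≤ X := by rw [hX]; exact Real.sqrt_nonneg _
  have hX2 : X ^ 2 = x := by rw [hX]; exact Real.sq_sqrt (by linarith)
  obtain ⟨U, hU⟩ : ∃ U : ℝ, U = 2 ^ s := ⟨_, rfl⟩
  have hU1 : 1 ≤ U := by rw [hU]; exact one_le_pow₀ (by norm_num)
  rw [← hU] at hs2 hs3
  obtain ⟨β, hβ⟩ : ∃ β : ℝ, β = (0.37 : ℝ) * Real.log 2 := ⟨_, rfl⟩
  rw [← hβ] at hs2 hs3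
  have hβ1 : (0.2564 : ℝ) ≤ β := by rw [hβ]; linarith
  have hβ2 : β ≤ (0.2566 : ℝ) := by rw [hβ]; linarith
  have hr1 : U * (T : ℝ) ^ 2 ≤ x := by rw [hU]; exact_mod_cast h1
  have hr2 : (x : ℝ) ≤ 4 * (U * (T : ℝ) ^ 2) := by rw [hU]; exact_mod_cast h2
  have hLb : L ^ (β / 2) * L ^ (β / 2) = L ^ β := by
    rw [← Real.rpow_add hL0]; congr 1; ring
  have hLb' : L ^ (-(β / 2)) * L ^ (β / 2) = 1 := by
    rw [← Real.rpow_add hL0]; simp
  have hp : 0 < L ^ (β / 2) := Real.rpow_pos_of_pos hL0 _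
  have hp' : 0 < L ^ (-(β / 2)) := Real.rpow_pos_of_pos hL0 _
  have hUT : U * T ≤ X * L ^ (β / 2) := by
    apply Final_sq _ _ (by positivity)
    calc (U * T) ^ 2 = U * (U * (T : ℝ) ^ 2) := by ring
      _ ≤ L ^ β * x := mul_le_mul hs2 hr1 (by positivity) (by positivity)
      _ = (X * L ^ (β / 2)) ^ 2 := by rw [← hLb, ← hX2]; ring
  have hTT : (T : ℝ) ≤ 2 * X * L ^ (-(β / 2)) := by
    apply Final_sq _ _ (by positivity)
    have e1 : L ^ β * (T : ℝ) ^ 2 ≤ 2 * x := by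
      calc L ^ β * (T : ℝ) ^ 2 ≤ (2 * U) * (T : ℝ) ^ 2 :=
            mul_le_mul_of_nonneg_right hs3 (by positivity)
        _ = 2 * (U * (T : ℝ) ^ 2) := by ring
        _ ≤ 2 * x := by linarith
    have e2 : (T : ℝ) ^ 2 = (L ^ (-(β / 2))) ^ 2 * (L ^ β * (T : ℝ) ^ 2) := by
      have : (L ^ (-(β / 2))) ^ 2 * L ^ β = 1 := by
        rw [← hLb]
        calc (L ^ (-(β / 2))) ^ 2 * (L ^ (β / 2) * L ^ (β / 2))
            = (L ^ (-(β / 2)) * L ^ (β / 2)) ^ 2 := by ring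
          _ = 1 := by rw [hLb']; norm_num
      rw [← mul_assoc, this, one_mul]
    calc (T : ℝ) ^ 2 = (L ^ (-(β / 2))) ^ 2 * (L ^ β * (T : ℝ) ^ 2) := e2
      _ ≤ (L ^ (-(β / 2))) ^ 2 * (2 * x) := mul_le_mul_of_nonneg_left e1 (by positivity)
      _ ≤ (L ^ (-(β / 2))) ^ 2 * (4 * x) :=
          mul_le_mul_of_nonneg_left (by linarith) (by positivity)
      _ = (2 * X * L ^ (-(β / 2))) ^ 2 := by rw [← hX2]; ring
  -- slowly varying factors
  obtain ⟨E, hE⟩ : ∃ E, E = L ^ (0.001 : ℝ) := ⟨_, rfl⟩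
  have hE1 : 1 ≤ E := by rw [hE]; exact Real.one_le_rpow hL1 (by norm_num)
  have hlogE : Real.log L ≤ 1000 * E := by
    have := Real.log_le_rpow_div (x := L) (by linarith) (ε := 0.001) (by norm_num)
    rw [← hE] at this
    calc Real.log L ≤ E / 0.001 := this
      _ = 1000 * E := by ring
  have hlog0 : 0 ≤ Real.log L := Real.log_nonneg hL1
  have hwE : (w : ℝ) ≤ 12030 * E := by linarith
  have hsE : (1 + 4 * (s : ℝ)) ≤ 1481 * E := by linarith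
  have hw67 : (67 + 96 * (w : ℝ)) ≤ 1154947 * E := by linarith
  -- first term
  have hfirst : (67 + 96 * (w : ℝ)) * T ≤ 2309894 * (X * L ^ (-(1 / 8) : ℝ)) := by
    calc (67 + 96 * (w : ℝ)) * T ≤ (1154947 * E) * (2 * X * L ^ (-(β / 2))) :=
          mul_le_mul hw67 hTT (by positivity) (by positivity)
      _ = 2309894 * (X * (L ^ (0.001 : ℝ) * L ^ (-(β / 2)))) := by rw [hE]; ring
      _ ≤ 2309894 * (X * L ^ (-(1 / 8) : ℝ)) := by
          apply mul_le_mul_of_nonneg_left _ (by norm_num)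
          apply mul_le_mul_of_nonneg_left _ hX0
          rw [← Real.rpow_add hL0]
          exact Real.rpow_le_rpow_of_exponent_le hL1 (by linarith)
  -- second term
  have hNr : (N : ℝ) = 16 * w * (U * T) := by rw [hN, hU]; push_cast; ring
  have hNle : (N : ℝ) ≤ (16 * 12030) * E * (X * L ^ (β / 2)) := by
    rw [hNr]
    calc 16 * (w : ℝ) * (U * T) ≤ (16 * (12030 * E)) * (X * L ^ (β / 2)) :=
          mul_le_mul (by linarith) hUT (by positivity) (by positivity)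
      _ = (16 * 12030) * E * (X * L ^ (β / 2)) := by ring
  have hlogN : L / 2 ≤ Real.log N := by
    have e0 : (1 : ℝ) ≤ w := by
      have : (6 : ℝ) ≤ w := by exact_mod_cast hw1
      linarith
    have e1 : (x : ℝ) ≤ (N : ℝ) ^ 2 := by
      have a1 : 2 * (U * T) ≤ (N : ℝ) := by
        rw [hNr]
        have : (0 : ℝ) ≤ U * T := by positivity
        nlinarith
      have a2 : (2 * (U * (T : ℝ))) ^ 2 ≤ (N : ℝ) ^ 2 := pow_le_pow_left₀ (by positivity) a1 2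
      have a3 : (x : ℝ) ≤ (2 * (U * (T : ℝ))) ^ 2 := by
        have : (0 : ℝ) ≤ U * (T : ℝ) ^ 2 := by positivity
        nlinarith
      exact a3.trans a2
    have e2 := Real.log_le_log (by linarith) e1
    rw [Real.log_pow, ← hL] at e2
    push_cast at e2
    linarith
  have hlogN' : Real.log N ^ ((0.37 : ℝ) - 1) ≤ 2 * L ^ (-(0.63) : ℝ) := by
    have e1 : ((0.37 : ℝ) - 1) = -(0.63) := by norm_num
    rw [e1]
    calc Real.log N ^ (-(0.63) : ℝ) ≤ (L / 2) ^ (-(0.63) : ℝ) :=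
          Real.rpow_le_rpow_of_nonpos (by linarith) hlogN (by norm_num)
      _ = L ^ (-(0.63) : ℝ) * (2 : ℝ) ^ (0.63 : ℝ) := by
          rw [Real.div_rpow hL0.le (by norm_num), Real.rpow_neg (by norm_num : (0 : ℝ) ≤ 2), div_inv_eq_mul]
      _ ≤ L ^ (-(0.63) : ℝ) * (2 : ℝ) ^ (1 : ℝ) := by
          apply mul_le_mul_of_nonneg_left _ (by positivity)
          exact Real.rpow_le_rpow_of_exponent_le (by norm_num) (by norm_num)
      _ = 2 * L ^ (-(0.63) : ℝ) := by rw [Real.rpow_one]; ring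
  obtain ⟨A, hA⟩ : ∃ A : ℝ, A = (((Finset.Icc 1 N).filter (fun m => om m < s)).card : ℝ) := ⟨_, rfl⟩
  rw [← hA] at hf hblock
  have hA0 : 0 ≤ A := by rw [hA]; exact Nat.cast_nonneg _
  have hAle : A ≤ L ^ (0.37 : ℝ) * (K * N * (2 * L ^ (-(0.63) : ℝ))) := by
    calc A = A * 1 := by ring
      _ ≤ A * (L ^ (0.37 : ℝ) * (0.37 : ℝ) ^ s) := mul_le_mul_of_nonneg_left hs4 hA0
      _ = L ^ (0.37 : ℝ) * (A * (0.37 : ℝ) ^ s) := by ring
      _ ≤ L ^ (0.37 : ℝ) * (K * N * Real.log N ^ ((0.37 : ℝ) - 1)) :=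
          mul_le_mul_of_nonneg_left hf (by positivity)
      _ ≤ L ^ (0.37 : ℝ) * (K * N * (2 * L ^ (-(0.63) : ℝ))) := by
          apply mul_le_mul_of_nonneg_left _ (by positivity)
          exact mul_le_mul_of_nonneg_left hlogN' (by positivity)
  have hsecond : (1 + 4 * (s : ℝ)) * A ≤
      (1481 * K * (16 * 12030) * 2) * (X * L ^ (-(1 / 8) : ℝ)) := by
    calc (1 + 4 * (s : ℝ)) * A
        ≤ (1481 * E) * (L ^ (0.37 : ℝ) * (K * N * (2 * L ^ (-(0.63) : ℝ)))) :=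
          mul_le_mul hsE hAle hA0 (by positivity)
      _ ≤ (1481 * E) * (L ^ (0.37 : ℝ) *
            (K * ((16 * 12030) * E * (X * L ^ (β / 2))) * (2 * L ^ (-(0.63) : ℝ)))) := by
          apply mul_le_mul_of_nonneg_left _ (by positivity)
          apply mul_le_mul_of_nonneg_left _ (by positivity)
          apply mul_le_mul_of_nonneg_right _ (by positivity)
          exact mul_le_mul_of_nonneg_left hNle hK.le
      _ = (1481 * K * (16 * 12030) * 2) *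
            (X * (L ^ (0.001 : ℝ) * L ^ (0.001 : ℝ) * L ^ (0.37 : ℝ) * L ^ (β / 2) * L ^ (-(0.63) : ℝ))) := by
          rw [hE]; ring
      _ ≤ (1481 * K * (16 * 12030) * 2) * (X * L ^ (-(1 / 8) : ℝ)) := by
          apply mul_le_mul_of_nonneg_left _ (by positivity)
          apply mul_le_mul_of_nonneg_left _ hX0
          rw [← Real.rpow_add hL0, ← Real.rpow_add hL0, ← Real.rpow_add hL0, ← Real.rpow_add hL0]
          exact Real.rpow_le_rpow_of_exponent_le hL1 (by linarith)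
  have hfin : (2309894 + 1481 * K * (16 * 12030) * 2) * X / L ^ (1 / 8 : ℝ) =
      2309894 * (X * L ^ (-(1 / 8) : ℝ)) +
        (1481 * K * (16 * 12030) * 2) * (X * L ^ (-(1 / 8) : ℝ)) := by
    rw [Real.rpow_neg hL0.le, div_eq_mul_inv]; ring
  rw [← hX, hfin]
  linarith

theorem Final_log (u v : ℝ) (hv : 0 ≤ v) (h : v / 2 ≤ u) :
    (0.9 : ℝ) * v ^ (1 / 8 : ℝ) ≤ u ^ (1 / 8 : ℝ) := by
  have e : (((0.9 : ℝ) ^ 8) ^ (1 / 8 : ℝ)) = 0.9 := by
    have := Real.pow_rpow_inv_natCast (x := (0.9 : ℝ)) (n := 8) (by norm_num) (by norm_num)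
    rw [← this]
    norm_num
  calc (0.9 : ℝ) * v ^ (1 / 8 : ℝ) = ((0.9 : ℝ) ^ 8 * v) ^ (1 / 8 : ℝ) := by
        rw [Real.mul_rpow (by positivity) hv, e]
    _ ≤ u ^ (1 / 8 : ℝ) := by
        apply Real.rpow_le_rpow (by positivity) _ (by norm_num)
        have : (0.9 : ℝ) ^ 8 ≤ 1 / 2 := by norm_num
        nlinarith

theorem Final_half (x : ℕ) (hx : 6 ≤ x) :
    Real.sqrt ((x / 2 : ℕ) : ℝ) / Real.log ((x / 2 : ℕ) : ℝ) ^ (1 / 8 : ℝ) ≤
      0.8 * (Real.sqrt x / Real.log x ^ (1 / 8 : ℝ)) := by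
  have hxr : (6 : ℝ) ≤ x := by exact_mod_cast hx
  have h1 : (((x / 2 : ℕ) : ℕ) : ℝ) ≤ x / 2 := by
    have : 2 * (x / 2) ≤ x := by omega
    have : (2 : ℝ) * ((x / 2 : ℕ) : ℝ) ≤ x := by exact_mod_cast this
    linarith
  have h2 : ((x : ℝ) - 1) / 2 ≤ ((x / 2 : ℕ) : ℝ) := by
    have : x ≤ 2 * (x / 2) + 1 := by omega
    have : (x : ℝ) ≤ 2 * ((x / 2 : ℕ) : ℝ) + 1 := by exact_mod_cast this
    linarith
  have h3 : (x : ℝ) ≤ ((x / 2 : ℕ) : ℝ) ^ 2 := by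
    have a := pow_le_pow_left₀ (by linarith) h2 2
    nlinarith
  have hlx : 0 < Real.log x := Real.log_pos (by linarith)
  have h4 : Real.log x / 2 ≤ Real.log ((x / 2 : ℕ) : ℝ) := by
    have a := Real.log_le_log (by linarith) h3
    rw [Real.log_pow] at a
    push_cast at a ⊢
    linarith
  have h5 := Final_log _ _ hlx.le h4
  have h6 : Real.sqrt ((x / 2 : ℕ) : ℝ) ≤ 0.72 * Real.sqrt x := by
    rw [Real.sqrt_le_iff]
    refine ⟨by positivity, ?_⟩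
    rw [mul_pow, Real.sq_sqrt (by linarith)]
    nlinarith
  have h7 : 0 < Real.log x ^ (1 / 8 : ℝ) := Real.rpow_pos_of_pos hlx _
  calc Real.sqrt ((x / 2 : ℕ) : ℝ) / Real.log ((x / 2 : ℕ) : ℝ) ^ (1 / 8 : ℝ)
      ≤ (0.72 * Real.sqrt x) / (0.9 * Real.log x ^ (1 / 8 : ℝ)) :=
        div_le_div₀ (by positivity) h6 (by positivity) h5
    _ = 0.8 * (Real.sqrt x / Real.log x ^ (1 / 8 : ℝ)) := by
        rw [mul_div_mul_comm]; norm_num

theorem Final_one (x : ℕ) (hx : 2 ≤ x) : 1 ≤ Real.sqrt x / Real.log x ^ (1 / 8 : ℝ) := by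
  have hxr : (2 : ℝ) ≤ x := by exact_mod_cast hx
  have hlx : 0 < Real.log x := Real.log_pos (by linarith)
  rw [le_div_iff₀ (Real.rpow_pos_of_pos hlx _), one_mul, Real.sqrt_eq_rpow]
  calc Real.log x ^ (1 / 8 : ℝ) ≤ (x : ℝ) ^ (1 / 8 : ℝ) := by
        apply Real.rpow_le_rpow hlx.le _ (by norm_num)
        exact (Real.log_le_sub_one_of_pos (by linarith)).trans (by linarith)
    _ ≤ (x : ℝ) ^ (1 / 2 : ℝ) :=
        Real.rpow_le_rpow_of_exponent_le (by linarith) (by norm_num)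

open Classical in
theorem Final_split (x : ℕ) :
    ((Finset.Icc 1 x).filter (fun n => n ∈ Exc)).card ≤
      ((Finset.Icc 1 (x / 2)).filter (fun n => n ∈ Exc)).card +
        ((Finset.Icc 1 x).filter (fun n => n ∈ Exc ∧ x < 2 * n)).card := by
  refine (Finset.card_le_card ?_).trans (Finset.card_union_le _ _)
  intro n hn
  simp only [Finset.mem_union, Finset.mem_filter, Finset.mem_Icc] at hn ⊢
  by_cases h : x < 2 * n
  · right; exact ⟨hn.1, hn.2, h⟩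
  · left; exact ⟨⟨hn.1.1, by omega⟩, hn.2⟩

open Classical in
theorem Final_nat : ∃ C : ℝ, 0 < C ∧ ∀ x : ℕ, 2 ≤ x →
    (((Finset.Icc 1 x).filter (fun n => n ∈ Exc)).card : ℝ) ≤
      C * (Real.sqrt x / Real.log x ^ (1 / 8 : ℝ)) := by
  obtain ⟨C, hC, x₀, h⟩ := block_real
  refine ⟨5 * C + x₀ + 6, by positivity, ?_⟩
  intro x
  induction x using Nat.strong_induction_on with
  | _ x ih =>
    intro hx
    have h1 := Final_one x hx
    have hx0 : (0 : ℝ) ≤ x₀ := Nat.cast_nonneg _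
    obtain ⟨Y, hY⟩ : ∃ Y, Y = Real.sqrt x / Real.log x ^ (1 / 8 : ℝ) := ⟨_, rfl⟩
    rw [← hY] at h1 ⊢
    by_cases hbig : x₀ + 6 ≤ x
    · have h2 := ih (x / 2) (by omega) (by omega)
      have h3 := h x (by omega)
      rw [mul_div_assoc, ← hY] at h3
      have h4 : (((Finset.Icc 1 x).filter (fun n => n ∈ Exc)).card : ℝ) ≤
          (((Finset.Icc 1 (x / 2)).filter (fun n => n ∈ Exc)).card : ℝ) +
          (((Finset.Icc 1 x).filter (fun n => n ∈ Exc ∧ x < 2 * n)).card : ℝ) := by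
        exact_mod_cast Final_split x
      have h5 := Final_half x (by omega)
      rw [← hY] at h5
      have h6 := mul_le_mul_of_nonneg_left h5 (show (0 : ℝ) ≤ 5 * C + x₀ + 6 by positivity)
      nlinarith
    · have h2 : ((Finset.Icc 1 x).filter (fun n => n ∈ Exc)).card ≤ x := by
        refine (Finset.card_filter_le _ _).trans ?_
        simp
      have h3 : (((Finset.Icc 1 x).filter (fun n => n ∈ Exc)).card : ℝ) ≤ x := by
        exact_mod_cast h2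
      have h4 : (x : ℝ) ≤ x₀ + 6 := by
        have : x ≤ x₀ + 6 := by omega
        exact_mod_cast this
      nlinarith

theorem final : ∃ C : ℝ, 0 < C ∧ ∀ x : ℝ, 2 ≤ x →
    (Set.ncard {n : ℕ | n ∈ Exc ∧ (n : ℝ) ≤ x} : ℝ) ≤
      C * Real.sqrt x / Real.log x ^ (1 / 8 : ℝ) := by
  classical
  obtain ⟨C, hC, h⟩ := Final_nat
  refine ⟨2 * C, by positivity, fun x hx => ?_⟩
  have hm : 2 ≤ ⌊x⌋₊ := Nat.le_floor (by exact_mod_cast hx)
  have h1 := h ⌊x⌋₊ hm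
  have hset : {n : ℕ | n ∈ Exc ∧ (n : ℝ) ≤ x} =
      (((Finset.Icc 1 ⌊x⌋₊).filter (fun n => n ∈ Exc) : Finset ℕ) : Set ℕ) := by
    ext n
    simp only [Set.mem_ofPred_eq, Finset.coe_filter, Finset.mem_Icc]
    constructor
    · rintro ⟨ha, hb⟩
      exact ⟨⟨by have := ha.1; omega, Nat.le_floor hb⟩, ha⟩
    · rintro ⟨⟨_, ha⟩, hb⟩
      exact ⟨hb, (Nat.le_floor_iff (by linarith)).mp ha⟩
  rw [hset, Set.ncard_coe_finset]
  refine h1.trans ?_
  have hfl : ((⌊x⌋₊ : ℕ) : ℝ) ≤ x := Nat.floor_le (by linarith)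
  have hfl2 : x ≤ (⌊x⌋₊ : ℝ) + 1 := (Nat.lt_floor_add_one x).le
  have hmr : (2 : ℝ) ≤ (⌊x⌋₊ : ℝ) := by exact_mod_cast hm
  have hlx : 0 < Real.log x := Real.log_pos (by linarith)
  have h4 : Real.log x / 2 ≤ Real.log (⌊x⌋₊ : ℝ) := by
    have b : x ≤ (⌊x⌋₊ : ℝ) ^ 2 := by nlinarith
    have a := Real.log_le_log (by linarith) b
    rw [Real.log_pow] at a
    push_cast at a ⊢
    linarith
  have h5 := Final_log _ _ hlx.le h4
  have h6 : Real.sqrt (⌊x⌋₊ : ℝ) ≤ Real.sqrt x := Real.sqrt_le_sqrt hfl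
  have h7 : 0 < Real.log x ^ (1 / 8 : ℝ) := Real.rpow_pos_of_pos hlx _
  have h8 : Real.sqrt (⌊x⌋₊ : ℝ) / Real.log (⌊x⌋₊ : ℝ) ^ (1 / 8 : ℝ) ≤
      2 * (Real.sqrt x / Real.log x ^ (1 / 8 : ℝ)) := by
    calc Real.sqrt (⌊x⌋₊ : ℝ) / Real.log (⌊x⌋₊ : ℝ) ^ (1 / 8 : ℝ)
        ≤ Real.sqrt x / (0.9 * Real.log x ^ (1 / 8 : ℝ)) :=
          div_le_div₀ (by positivity) h6 (by positivity) h5
      _ = (1 / 0.9) * (Real.sqrt x / Real.log x ^ (1 / 8 : ℝ)) := by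
          rw [div_mul_div_comm, one_mul]
      _ ≤ 2 * (Real.sqrt x / Real.log x ^ (1 / 8 : ℝ)) := by
          apply mul_le_mul_of_nonneg_right (by norm_num) (by positivity)
  calc C * (Real.sqrt (⌊x⌋₊ : ℝ) / Real.log (⌊x⌋₊ : ℝ) ^ (1 / 8 : ℝ))
      ≤ C * (2 * (Real.sqrt x / Real.log x ^ (1 / 8 : ℝ))) := mul_le_mul_of_nonneg_left h8 hC.le
    _ = 2 * C * Real.sqrt x / Real.log x ^ (1 / 8 : ℝ) := by ring

end SUB
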