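import Pool.Agent.helper23.SUB.Defs

set_option autoImplicit false

/-!
Subbarao, module SUB-CountA.

`count_class`: two such `n ≤ n'` differ by a multiple of `D M` (`D` and `M` are coprime because
`n` and `n - 1` are), so `n ↦ n / (D M)` is injective into `[0, x / (D M)]`.

`many`: `2^w #{...} ≤ ∑_{D ≤ T} 2^(om D) ≤ ∑_{D ≤ T} τ(D) = ∑_{d ≤ T} ⌊T/d⌋ ≤ T (1 + log T)`.
-/

namespace SUB

theorem CountA_inj (D M n n' : ℕ) (hn : 1 ≤ n) (h1 : D ∣ n) (h2 : M ∣ n - 1)
    (h3 : D ∣ n') (h4 : M ∣ n' - 1) (hle : n ≤ n') (hd : n / (D * M) = n' / (D * M))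
    (hDM : 0 < D * M) : n = n' := by
  have hcop : Nat.Coprime D M := by
    have h5 : Nat.Coprime n (n - 1) := by
      have h6 : Nat.Coprime (n - 1 + 1) (n - 1) := by simp
      rwa [Nat.sub_add_cancel hn] at h6
    exact (h5.coprime_dvd_left h1).coprime_dvd_right h2
  have h5 : D ∣ n' - n := Nat.dvd_sub h3 h1
  have h6 : M ∣ n' - n := by
    have h7 : n' - n = (n' - 1) - (n - 1) := by omega
    rw [h7]
    exact Nat.dvd_sub h4 h2
  have h7 : D * M ∣ n' - n := hcop.mul_dvd_of_dvd_of_dvd h5 h6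
  have h8 : n' - n < D * M := by
    have e1 := Nat.div_add_mod n (D * M)
    have e2 := Nat.div_add_mod n' (D * M)
    have e3 := Nat.mod_lt n' hDM
    rw [hd] at e1
    omega
  have h9 := Nat.eq_zero_of_dvd_of_lt h7 h8
  omega

theorem count_class (x D M : ℕ) (hD : 0 < D) (hM : 0 < M) :
    ((Finset.Icc 1 x).filter (fun n => D ∣ n ∧ M ∣ n - 1)).card ≤ x / (D * M) + 1 := by
  have hDM : 0 < D * M := Nat.mul_pos hD hM
  have h1 : ((Finset.Icc 1 x).filter (fun n => D ∣ n ∧ M ∣ n - 1)).card ≤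
      (Finset.range (x / (D * M) + 1)).card := by
    refine Finset.card_le_card_of_injOn (fun n => n / (D * M)) ?_ ?_
    · intro n hn
      have h2 := Finset.mem_filter.1 (Finset.mem_coe.1 hn)
      have h3 := (Finset.mem_Icc.1 h2.1).2
      exact Finset.mem_coe.2 (Finset.mem_range.2 (Nat.lt_succ_of_le (Nat.div_le_div_right h3)))
    · intro n hn n' hn' hd
      obtain ⟨h2, h3, h4⟩ := Finset.mem_filter.1 (Finset.mem_coe.1 hn)
      obtain ⟨h2', h3', h4'⟩ := Finset.mem_filter.1 (Finset.mem_coe.1 hn')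
      have h5 := (Finset.mem_Icc.1 h2).1
      have h5' := (Finset.mem_Icc.1 h2').1
      have hd' : n / (D * M) = n' / (D * M) := hd
      rcases le_total n n' with h | h
      · exact CountA_inj D M n n' h5 h3 h4 h3' h4' h hd' hDM
      · exact (CountA_inj D M n' n h5' h3' h4' h3 h4 h hd'.symm hDM).symm
  rwa [Finset.card_range] at h1

theorem CountA_two_pow (D : ℕ) (hD : D ≠ 0) : 2 ^ om D ≤ D.divisors.card := by
  rw [Nat.card_divisors hD]
  unfold om
  refine Finset.pow_card_le_prod _ _ 2 (fun p hp => ?_)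
  obtain ⟨hpp, hpd, -⟩ := Nat.mem_primeFactors.1 hp
  have := hpp.factorization_pos_of_dvd hD hpd
  omega

theorem CountA_sum (T : ℕ) : ∑ D ∈ Finset.Icc 1 T, D.divisors.card =
    ∑ d ∈ Finset.Icc 1 T, T / d := by
  have h1 : ∀ D ∈ Finset.Icc 1 T, D.divisors.card =
      ∑ d ∈ Finset.Icc 1 T, (if d ∣ D then 1 else 0) := by
    intro D hD
    obtain ⟨hD1, hD2⟩ := Finset.mem_Icc.1 hD
    rw [← Finset.sum_filter, Finset.sum_const, smul_eq_mul, mul_one]
    congr 1
    ext d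
    rw [Nat.mem_divisors, Finset.mem_filter, Finset.mem_Icc]
    constructor
    · rintro ⟨h2, h3⟩
      have h4 := Nat.le_of_dvd hD1 h2
      have h5 := Nat.pos_of_dvd_of_pos h2 hD1
      exact ⟨⟨h5, h4.trans hD2⟩, h2⟩
    · rintro ⟨-, h3⟩
      exact ⟨h3, by omega⟩
  rw [Finset.sum_congr rfl h1, Finset.sum_comm]
  refine Finset.sum_congr rfl (fun d _ => ?_)
  rw [← Finset.sum_filter, Finset.sum_const, smul_eq_mul, mul_one]
  have h2 : Finset.Icc 1 T = Finset.Ioc 0 T := by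
    ext y
    rw [Finset.mem_Icc, Finset.mem_Ioc]
    omega
  rw [h2]
  exact Nat.Ioc_filter_dvd_card_eq_div T d

theorem many (T w : ℕ) (hT : 1 ≤ T) :
    (((Finset.Icc 1 T).filter (fun D => w ≤ om D)).card : ℝ) * 2 ^ w ≤ T * (1 + Real.log T) := by
  have h1 : ((Finset.Icc 1 T).filter (fun D => w ≤ om D)).card * 2 ^ w ≤
      ∑ d ∈ Finset.Icc 1 T, T / d := by
    rw [← CountA_sum]
    calc ((Finset.Icc 1 T).filter (fun D => w ≤ om D)).card * 2 ^ w
        = ∑ _D ∈ (Finset.Icc 1 T).filter (fun D => w ≤ om D), 2 ^ w := by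
          rw [Finset.sum_const, smul_eq_mul]
      _ ≤ ∑ D ∈ (Finset.Icc 1 T).filter (fun D => w ≤ om D), D.divisors.card := by
          refine Finset.sum_le_sum (fun D hD => ?_)
          obtain ⟨h2, h3⟩ := Finset.mem_filter.1 hD
          have h4 := (Finset.mem_Icc.1 h2).1
          exact (Nat.pow_le_pow_right (by norm_num) h3).trans (CountA_two_pow D (by omega))
      _ ≤ ∑ D ∈ Finset.Icc 1 T, D.divisors.card :=
          Finset.sum_le_sum_of_subset (Finset.filter_subset _ _)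
  have h2 : ((∑ d ∈ Finset.Icc 1 T, T / d : ℕ) : ℝ) ≤ T * (1 + Real.log T) := by
    push_cast
    have h3 : ∀ d ∈ Finset.Icc 1 T, ((T / d : ℕ) : ℝ) ≤ T * ((d : ℝ)⁻¹) := by
      intro d _
      rw [← div_eq_mul_inv]
      exact Nat.cast_div_le
    refine (Finset.sum_le_sum h3).trans ?_
    rw [← Finset.mul_sum]
    refine mul_le_mul_of_nonneg_left ?_ (Nat.cast_nonneg T)
    have h4 := harmonic_le_one_add_log T
    rw [harmonic_eq_sum_Icc] at h4
    push_cast at h4
    exact h4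
  have h3 : ((((Finset.Icc 1 T).filter (fun D => w ≤ om D)).card * 2 ^ w : ℕ) : ℝ) ≤
      ((∑ d ∈ Finset.Icc 1 T, T / d : ℕ) : ℝ) := by exact_mod_cast h1
  push_cast at h3
  push_cast at h2
  exact h3.trans h2

end SUB
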