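import Pool.Agent.helper23.SUB.Defs

set_option autoImplicit false

/-!
Subbarao, module SUB-SumInv.

`D / phiStar D = ∏ (1 + 1/(q - 1)) = ∑_{t} ∏_{q ∈ t} 1/(q - 1)` over the sets `t` of
components of `D`; for odd `D`, `q - 1 ≥ √q`, and `t ↦ ∏ t` is injective into the divisors of `D`, so
`D / phiStar D ≤ ∑_{d ∣ D} 1/√d`.  Then `∑_{z < D ≤ T} (D / phiStar D) / D^2 ≤
∑_d d^(-1/2) ∑_{m > z/d} (d m)^(-2) ≤ ∑_d d^(-5/2) (2 d / z) ≤ 6 / z`, as `∑_{m > u} m^(-2) ≤ 2/u` (`u > 0`) and
`∑ d^(-3/2) ≤ 3`.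
-/

namespace SUB

open Finset

private lemma si_sqrt_prod (q : ℕ → ℕ) (t : Finset ℕ) :
    ∏ p ∈ t, 1 / Real.sqrt (q p) = 1 / Real.sqrt ((∏ p ∈ t, q p : ℕ) : ℝ) := by
  induction t using Finset.induction_on with
  | empty => simp
  | insert a s ha ih =>
    rw [prod_insert ha, prod_insert ha, ih, Nat.cast_mul, Real.sqrt_mul (Nat.cast_nonneg _)]
    rw [one_div_mul_one_div]

private lemma si_factor {q : ℕ} (hq : 3 ≤ q) : (q : ℝ) / ((q - 1 : ℕ) : ℝ) ≤ 1 + 1 / Real.sqrt q := by
  have hq' : (3 : ℝ) ≤ q := by exact_mod_cast hq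
  rw [Nat.cast_sub (by omega : 1 ≤ q), Nat.cast_one]
  have h0 : (0 : ℝ) < q - 1 := by linarith
  have h1 : Real.sqrt q ≤ q - 1 := by
    rw [Real.sqrt_le_left (by linarith)]
    nlinarith
  have h2 : 0 < Real.sqrt q := Real.sqrt_pos.2 (by linarith)
  have h3 : (q : ℝ) / (q - 1) = 1 + 1 / (q - 1) := by
    field_simp
    ring
  rw [h3]
  have h4 : 1 / ((q : ℝ) - 1) ≤ 1 / Real.sqrt q := one_div_le_one_div_of_le h2 h1
  linarith

private lemma si_ratio {D : ℕ} (hD : Odd D) :
    (D : ℝ) / (phiStar D : ℝ) ≤ ∑ d ∈ D.divisors, 1 / Real.sqrt d := by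
  classical
  have hD0 : D ≠ 0 := by rintro rfl; simp at hD
  have hprod : D = ∏ p ∈ D.primeFactors, p ^ D.factorization p := (Nat.prod_factorization_pow_eq_self hD0).symm
  have hp3 : ∀ p ∈ D.primeFactors, 3 ≤ p := by
    intro p hp
    have h1 := Nat.prime_of_mem_primeFactors hp
    have h2 := Nat.dvd_of_mem_primeFactors hp
    have h3 : p ≠ 2 := by
      rintro rfl
      exact (Nat.not_even_iff_odd.2 hD) (even_iff_two_dvd.2 h2)
    have h4 := h1.two_le
    omega
  have ha : ∀ p ∈ D.primeFactors, D.factorization p ≠ 0 := by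
    intro p hp
    have h1 := (Nat.support_factorization D).symm ▸ hp
    exact Finsupp.mem_support_iff.1 h1
  have hq3 : ∀ p ∈ D.primeFactors, 3 ≤ p ^ D.factorization p := by
    intro p hp
    calc 3 ≤ p := hp3 p hp
      _ ≤ p ^ D.factorization p := Nat.le_self_pow (ha p hp) p
  have h1 : (D : ℝ) / (phiStar D : ℝ) =
      ∏ p ∈ D.primeFactors, ((p ^ D.factorization p : ℕ) : ℝ) / ((p ^ D.factorization p - 1 : ℕ) : ℝ) := by
    rw [prod_div_distrib, ← Nat.cast_prod, ← Nat.cast_prod, ← hprod]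
    rfl
  rw [h1]
  calc ∏ p ∈ D.primeFactors, ((p ^ D.factorization p : ℕ) : ℝ) / ((p ^ D.factorization p - 1 : ℕ) : ℝ)
      ≤ ∏ p ∈ D.primeFactors, (1 + 1 / Real.sqrt ((p ^ D.factorization p : ℕ) : ℝ)) := by
        refine prod_le_prod (fun p _ => by positivity) fun p hp => si_factor (hq3 p hp)
    _ = ∑ t ∈ D.primeFactors.powerset, ∏ p ∈ t, 1 / Real.sqrt ((p ^ D.factorization p : ℕ) : ℝ) := by
        rw [prod_one_add]
    _ = ∑ t ∈ D.primeFactors.powerset, 1 / Real.sqrt ((∏ p ∈ t, p ^ D.factorization p : ℕ) : ℝ) :=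
        sum_congr rfl fun t _ => si_sqrt_prod (fun p => p ^ D.factorization p) t
    _ = ∑ d ∈ D.primeFactors.powerset.image (fun t => ∏ p ∈ t, p ^ D.factorization p), 1 / Real.sqrt (d : ℝ) := by
        rw [sum_image]
        intro t ht t' ht' he
        rw [mem_coe, mem_powerset] at ht ht'
        have key : ∀ s ⊆ D.primeFactors, ∀ p ∈ D.primeFactors, p ∈ s ↔ p ∣ ∏ r ∈ s, r ^ D.factorization r := by
          intro s hs p hp
          constructor
          · intro h
            exact (dvd_pow_self p (ha p hp)).trans (dvd_prod_of_mem _ h)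
          · intro h
            obtain ⟨r, hr, h2⟩ := (Nat.prime_of_mem_primeFactors hp).prime.exists_mem_finset_dvd h
            have h3 := (Nat.prime_of_mem_primeFactors hp).dvd_of_dvd_pow h2
            have h4 := (Nat.prime_dvd_prime_iff_eq (Nat.prime_of_mem_primeFactors hp)
              (Nat.prime_of_mem_primeFactors (hs hr))).1 h3
            rw [h4]
            exact hr
        have he' : ∏ p ∈ t, p ^ D.factorization p = ∏ p ∈ t', p ^ D.factorization p := he
        ext p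
        constructor
        · intro hp
          have := (key t ht p (ht hp)).1 hp
          rw [he'] at this
          exact (key t' ht' p (ht hp)).2 this
        · intro hp
          have := (key t' ht' p (ht' hp)).1 hp
          rw [← he'] at this
          exact (key t ht p (ht' hp)).2 this
    _ ≤ ∑ d ∈ D.divisors, 1 / Real.sqrt d := by
        refine sum_le_sum_of_subset_of_nonneg ?_ (fun d _ _ => by positivity)
        intro d hd
        rw [mem_image] at hd
        obtain ⟨t, ht, rfl⟩ := hd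
        rw [mem_powerset] at ht
        rw [Nat.mem_divisors]
        refine ⟨?_, hD0⟩
        conv_rhs => rw [hprod]
        exact prod_dvd_prod_of_subset _ _ _ ht

/-- `∑_{m > u} 1/m² ≤ 2/u` -/
private lemma si_tail (u : ℝ) (hu : 0 < u) (T : ℕ) :
    ∑ m ∈ (Icc 1 T).filter (fun m : ℕ => u < (m : ℝ)), 1 / ((m : ℝ) ^ 2) ≤ 2 / u := by
  obtain ⟨k, hk⟩ : ∃ k : ℕ, k = ⌊u⌋₊ + 1 := ⟨_, rfl⟩
  have hk1 : 1 ≤ k := by omega
  have hku : u < k := by rw [hk]; push_cast; exact Nat.lt_floor_add_one u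
  have hk0 : (0 : ℝ) < k := hu.trans hku
  have hsub : (Icc 1 T).filter (fun m : ℕ => u < (m : ℝ)) ⊆ Icc k T := by
    intro m hm
    rw [mem_filter, mem_Icc] at hm
    rw [mem_Icc]
    refine ⟨?_, hm.1.2⟩
    rw [hk]
    have : ⌊u⌋₊ < m := (Nat.floor_lt hu.le).2 hm.2
    omega
  have hmain : ∀ T : ℕ, k ≤ T → ∑ m ∈ Icc k T, 1 / ((m : ℝ) ^ 2) ≤ 2 / (k : ℝ) - 1 / (T : ℝ) := by
    intro T hT
    induction T, hT using Nat.le_induction with
    | base =>
      rw [Icc_self, sum_singleton]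
      have h1 : (1 : ℝ) ≤ k := by exact_mod_cast hk1
      have h2 : 1 / ((k : ℝ) ^ 2) ≤ 1 / k := by
        apply one_div_le_one_div_of_le hk0
        nlinarith
      have h3 : 2 / (k : ℝ) - 1 / k = 1 / k := by ring
      rw [h3]
      exact h2
    | succ n hn ih =>
      rw [sum_Icc_succ_top (by omega)]
      have hn0 : (0 : ℝ) < n := by
        have : 1 ≤ n := hk1.trans hn
        exact_mod_cast this
      have h1 : 1 / (((n + 1 : ℕ) : ℝ) ^ 2) ≤ 1 / (n : ℝ) - 1 / ((n + 1 : ℕ) : ℝ) := by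
        push_cast
        rw [div_sub_div _ _ hn0.ne' (by positivity), div_le_div_iff₀ (by positivity) (by positivity)]
        nlinarith
      linarith
  calc ∑ m ∈ (Icc 1 T).filter (fun m : ℕ => u < (m : ℝ)), 1 / ((m : ℝ) ^ 2)
      ≤ ∑ m ∈ Icc k T, 1 / ((m : ℝ) ^ 2) := sum_le_sum_of_subset_of_nonneg hsub (fun _ _ _ => by positivity)
    _ ≤ 2 / (k : ℝ) := by
        by_cases hT : k ≤ T
        · have h1 := hmain T hT
          have h2 : (0 : ℝ) ≤ 1 / (T : ℝ) := by positivity
          linarith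
        · rw [Icc_eq_empty hT, sum_empty]
          positivity
    _ ≤ 2 / u := div_le_div_of_nonneg_left (by norm_num) hu hku.le

private lemma si_zeta (T : ℕ) : ∑ d ∈ Icc 1 T, 1 / ((d : ℝ) * Real.sqrt d) ≤ 3 := by
  have hmain : ∀ T : ℕ, 1 ≤ T → ∑ d ∈ Icc 1 T, 1 / ((d : ℝ) * Real.sqrt d) ≤ 3 - 2 / Real.sqrt T := by
    intro T hT
    induction T, hT using Nat.le_induction with
    | base =>
      norm_num
    | succ n hn ih =>
      rw [sum_Icc_succ_top (by omega)]
      have hn0 : (0 : ℝ) < n := by exact_mod_cast hn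
      obtain ⟨a, ha⟩ : ∃ a, a = Real.sqrt n := ⟨_, rfl⟩
      obtain ⟨b, hb⟩ : ∃ b, b = Real.sqrt ((n + 1 : ℕ) : ℝ) := ⟨_, rfl⟩
      have ha0 : 0 < a := by rw [ha]; exact Real.sqrt_pos.2 hn0
      have hb0 : 0 < b := by rw [hb]; exact Real.sqrt_pos.2 (by positivity)
      have ha2 : a ^ 2 = n := by rw [ha]; exact Real.sq_sqrt hn0.le
      have hb2 : b ^ 2 = n + 1 := by
        rw [hb, Real.sq_sqrt (by positivity)]
        push_cast
        ring
      have hab : a ≤ b := by
        rw [ha, hb]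
        apply Real.sqrt_le_sqrt
        push_cast
        linarith
      have h1 : 1 / (((n + 1 : ℕ) : ℝ) * b) ≤ 2 / a - 2 / b := by
        have e1 : ((n + 1 : ℕ) : ℝ) = b ^ 2 := by rw [hb2]; push_cast; ring
        rw [e1, div_sub_div _ _ ha0.ne' hb0.ne', div_le_div_iff₀ (by positivity) (by positivity)]
        have h2 : (b - a) * (b + a) = 1 := by nlinarith
        -- `a b ≤ 2 (b - a) b^3`
        have h3 : 1 ≤ (b - a) * (2 * b) := by
          have h4 : 0 ≤ b - a := by linarith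
          nlinarith
        have h5 : a * b ≤ b * b := by nlinarith
        calc 1 * (a * b) ≤ b * b := by linarith
          _ ≤ ((b - a) * (2 * b)) * (b * b) := by
              have : 0 ≤ b * b := by positivity
              nlinarith
          _ = (2 * b - a * 2) * (b ^ 2 * b) := by ring
      rw [← hb]
      rw [← ha] at ih
      linarith
  by_cases hT : 1 ≤ T
  · have h1 := hmain T hT
    have h2 : 0 ≤ 2 / Real.sqrt T := by positivity
    linarith
  · rw [Icc_eq_empty (by omega), sum_empty]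
    norm_num

open Classical in
theorem sum_inv (z : ℝ) (hz : 0 < z) (T : ℕ) :
    ∑ D ∈ (Finset.Icc 1 T).filter (fun D : ℕ => Odd D ∧ z < (D : ℝ)),
      1 / ((D : ℝ) * (phiStar D : ℝ)) ≤ 6 / z := by
  have hF : (Icc 1 T).filter (fun D : ℕ => Odd D ∧ z < (D : ℝ)) ⊆ (Icc 1 T).filter (fun D : ℕ => z < (D : ℝ)) := by
    intro D hD
    rw [mem_filter] at hD ⊢
    exact ⟨hD.1, hD.2.2⟩
  calc ∑ D ∈ (Icc 1 T).filter (fun D : ℕ => Odd D ∧ z < (D : ℝ)), 1 / ((D : ℝ) * (phiStar D : ℝ))
      ≤ ∑ D ∈ (Icc 1 T).filter (fun D : ℕ => Odd D ∧ z < (D : ℝ)),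
          ∑ d ∈ Icc 1 T, (if d ∣ D then (1 / Real.sqrt d) * (1 / (D : ℝ) ^ 2) else 0) := by
        refine sum_le_sum fun D hD => ?_
        rw [mem_filter, mem_Icc] at hD
        obtain ⟨⟨hD1, hDT⟩, hodd, -⟩ := hD
        have hD0 : (0 : ℝ) < D := by exact_mod_cast hD1
        have e1 : 1 / ((D : ℝ) * (phiStar D : ℝ)) = ((D : ℝ) / (phiStar D : ℝ)) * (1 / (D : ℝ) ^ 2) := by
          rw [div_mul_div_comm, mul_one, pow_two, mul_comm (phiStar D : ℝ), mul_assoc, mul_comm (D : ℝ) (_ * _),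
            div_mul_cancel_right₀ hD0.ne']
          rw [one_div]
        rw [e1]
        have h1 := mul_le_mul_of_nonneg_right (si_ratio hodd) (show (0 : ℝ) ≤ 1 / (D : ℝ) ^ 2 by positivity)
        refine h1.trans (le_of_eq ?_)
        rw [sum_mul, ← sum_filter]
        refine sum_congr ?_ fun _ _ => rfl
        ext d
        rw [Nat.mem_divisors, mem_filter, mem_Icc]
        constructor
        · rintro ⟨h2, _⟩
          exact ⟨⟨Nat.pos_of_dvd_of_pos h2 hD1, (Nat.le_of_dvd hD1 h2).trans hDT⟩, h2⟩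
        · rintro ⟨_, h2⟩
          exact ⟨h2, by omega⟩
    _ ≤ ∑ D ∈ (Icc 1 T).filter (fun D : ℕ => z < (D : ℝ)),
          ∑ d ∈ Icc 1 T, (if d ∣ D then (1 / Real.sqrt d) * (1 / (D : ℝ) ^ 2) else 0) := by
        refine sum_le_sum_of_subset_of_nonneg hF fun D _ _ => sum_nonneg fun d _ => ?_
        split_ifs
        · positivity
        · exact le_rfl
    _ = ∑ d ∈ Icc 1 T, (1 / Real.sqrt d) *
          ∑ D ∈ ((Icc 1 T).filter (fun D : ℕ => z < (D : ℝ))).filter (fun D => d ∣ D), 1 / (D : ℝ) ^ 2 := by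
        rw [sum_comm]
        refine sum_congr rfl fun d _ => ?_
        rw [← sum_filter, mul_sum]
    _ ≤ ∑ d ∈ Icc 1 T, (2 / z) * (1 / ((d : ℝ) * Real.sqrt d)) := by
        refine sum_le_sum fun d hd => ?_
        rw [mem_Icc] at hd
        have hd0 : (0 : ℝ) < d := by exact_mod_cast hd.1
        have h1 : ∑ D ∈ ((Icc 1 T).filter (fun D : ℕ => z < (D : ℝ))).filter (fun D => d ∣ D), 1 / (D : ℝ) ^ 2 ≤
            ∑ m ∈ (Icc 1 T).filter (fun m : ℕ => z / d < (m : ℝ)), (1 / (d : ℝ) ^ 2) * (1 / (m : ℝ) ^ 2) := by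
          have e1 : ∑ D ∈ ((Icc 1 T).filter (fun D : ℕ => z < (D : ℝ))).filter (fun D => d ∣ D), 1 / (D : ℝ) ^ 2 =
              ∑ m ∈ (((Icc 1 T).filter (fun D : ℕ => z < (D : ℝ))).filter (fun D => d ∣ D)).image (fun D => D / d),
                (1 / (d : ℝ) ^ 2) * (1 / (m : ℝ) ^ 2) := by
            rw [sum_image]
            · refine sum_congr rfl fun D hD => ?_
              rw [mem_filter] at hD
              obtain ⟨m, rfl⟩ := hD.2
              rw [Nat.mul_div_cancel_left m hd.1, Nat.cast_mul, mul_pow, one_div_mul_one_div]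
            · intro D hD D' hD' he
              rw [mem_coe, mem_filter] at hD hD'
              have he' : D / d = D' / d := he
              rw [← Nat.div_mul_cancel hD.2, ← Nat.div_mul_cancel hD'.2, he']
          rw [e1]
          refine sum_le_sum_of_subset_of_nonneg ?_ fun _ _ _ => by positivity
          intro m hm
          rw [mem_image] at hm
          obtain ⟨D, hD, rfl⟩ := hm
          rw [mem_filter, mem_filter, mem_Icc] at hD
          obtain ⟨⟨⟨hD1, hDT⟩, hzD⟩, m, rfl⟩ := hD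
          rw [Nat.mul_div_cancel_left m hd.1, mem_filter, mem_Icc]
          have hm0 : 1 ≤ m := by
            rcases Nat.eq_zero_or_pos m with h | h
            · rw [h] at hD1; omega
            · exact h
          refine ⟨⟨hm0, ?_⟩, ?_⟩
          · calc m ≤ d * m := Nat.le_mul_of_pos_left m hd.1
              _ ≤ T := hDT
          · rw [div_lt_iff₀ hd0]
            push_cast at hzD
            linarith
        have h2 := si_tail (z / d) (div_pos hz hd0) T
        have h3 : ∑ m ∈ (Icc 1 T).filter (fun m : ℕ => z / d < (m : ℝ)), (1 / (d : ℝ) ^ 2) * (1 / (m : ℝ) ^ 2) ≤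
            (1 / (d : ℝ) ^ 2) * (2 / (z / d)) := by
          rw [← mul_sum]
          exact mul_le_mul_of_nonneg_left h2 (by positivity)
        have h4 := mul_le_mul_of_nonneg_left (h1.trans h3) (show (0 : ℝ) ≤ 1 / Real.sqrt d by positivity)
        refine h4.trans (le_of_eq ?_)
        have hs : Real.sqrt d ≠ 0 := (Real.sqrt_pos.2 hd0).ne'
        field_simp
    _ = (2 / z) * ∑ d ∈ Icc 1 T, 1 / ((d : ℝ) * Real.sqrt d) := by rw [mul_sum]
    _ ≤ (2 / z) * 3 := mul_le_mul_of_nonneg_left (si_zeta T) (by positivity)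
    _ = 6 / z := by ring

end SUB
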