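import Pool.Agent.helper23.SUB.Unit
import Pool.Agent.helper23.SUB.CountA
import Pool.Agent.helper23.SUB.SumInv

set_option autoImplicit false

/-!
Subbarao, module SUB-Block: the elements of `Exc` in a dyadic block.

Notation `U = 2^s`, `x/(U T) ≤ 4 T`.  For `n ∈ Exc`, `x/2 < n ≤ x`, take `D`, `C` from `exists_div` (`T ≤ n`): `n = D C`,
`D ≤ T < 2 (om n) D`; `D`, `C` are odd, `phiStar n = phiStar D * phiStar C` divides `n - 1`.

(A1) `om n > 2 w`, `om C ≥ w`: `2^w phiStar D ∣ n - 1`, `T < 2 R D`: by `count_class`, `sum_inv` (with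
`z = T/(2R)`) at most `∑ (1 + x/(2^w D phiStar D)) ≤ T + 12 R x/(2^w T) ≤ T + 48 R U T/2^w ≤ 49 T`.

(A2) `om n > 2 w`, `om C < w`, so `om D ≥ w`: `T < 2 R D`, `D ≤ (R + 1) phiStar D`: at most
`#{D ≤ T : om D ≥ w} (1 + 4 R^2 (R + 1) x/T^2) ≤ T (1 + log T) 2^(-w) (1 + 16 R^2 (R + 1)^2) ≤ 17 T`.

(B1) `om n ≤ 2 w`, `om C ≥ s`: `U phiStar D ∣ n - 1`, `T < 4 w D`: at most `T + 24 w x/(U T) ≤ T + 96 w T`.

(B2) `om n ≤ 2 w`, `om C < s`: count by `C` (`count_class` with `C`, `phiStar C`): `x/(2 T) < C ≤ 4 w x/T ≤ 16 w U T`,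
`C ≤ s phiStar C`, so `x/(C phiStar C) ≤ x s/C^2 ≤ 4 s T^2/x ≤ 4 s`: at most `(1 + 4 s)` times the number
of the `C`.
-/

namespace SUB

theorem Block_phi_pos (n : ℕ) (hn : n ≠ 0) : 0 < phiStar n := by
  rcases Nat.eq_zero_or_pos (phiStar n) with h | h
  · have h2 := le_phiStar n hn
    rw [h, mul_zero] at h2
    omega
  · exact h

open Classical in
/-- Counting by the divisor `D`, the cases (A1) and (B1). -/
theorem Block_coverD (x T M : ℕ) (hM : 0 < M) (z : ℝ) (hz : 0 < z) :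
    (((Finset.Icc 1 x).filter (fun n => ∃ D : ℕ, 1 ≤ D ∧ D ≤ T ∧ Odd D ∧ z < (D : ℝ) ∧ D ∣ n ∧
      M * phiStar D ∣ n - 1)).card : ℝ) ≤ T + (x : ℝ) / M * (6 / z) := by
  set F : Finset ℕ := (Finset.Icc 1 T).filter (fun D : ℕ => Odd D ∧ z < (D : ℝ)) with hF
  have hsub : (Finset.Icc 1 x).filter (fun n => ∃ D : ℕ, 1 ≤ D ∧ D ≤ T ∧ Odd D ∧ z < (D : ℝ) ∧
      D ∣ n ∧ M * phiStar D ∣ n - 1) ⊆ F.biUnion (fun D => (Finset.Icc 1 x).filter
        (fun n => D ∣ n ∧ M * phiStar D ∣ n - 1)) := by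
    intro n hn
    rw [Finset.mem_filter] at hn
    obtain ⟨hn1, D, h1, h2, h3, h4, h5, h6⟩ := hn
    rw [Finset.mem_biUnion]
    refine ⟨D, ?_, ?_⟩
    · rw [hF, Finset.mem_filter, Finset.mem_Icc]
      exact ⟨⟨h1, h2⟩, h3, h4⟩
    · rw [Finset.mem_filter]
      exact ⟨hn1, h5, h6⟩
  have hc := (Finset.card_le_card hsub).trans Finset.card_biUnion_le
  have hterm : ∀ D ∈ F, ((((Finset.Icc 1 x).filter
        (fun n => D ∣ n ∧ M * phiStar D ∣ n - 1)).card : ℕ) : ℝ) ≤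
        1 + (x : ℝ) / M * (1 / ((D : ℝ) * (phiStar D : ℝ))) := by
    intro D hD
    rw [hF, Finset.mem_filter, Finset.mem_Icc] at hD
    have hDp : 0 < D := by omega
    have hph := Block_phi_pos D (by omega)
    have hcc := count_class x D (M * phiStar D) hDp (Nat.mul_pos hM hph)
    have hcc2 : ((((Finset.Icc 1 x).filter
        (fun n => D ∣ n ∧ M * phiStar D ∣ n - 1)).card : ℕ) : ℝ) ≤
        ((x / (D * (M * phiStar D)) : ℕ) : ℝ) + 1 := by
      exact_mod_cast hcc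
    refine hcc2.trans ?_
    have h3 : ((x / (D * (M * phiStar D)) : ℕ) : ℝ) ≤ (x : ℝ) / ((D * (M * phiStar D) : ℕ) : ℝ) :=
      Nat.cast_div_le
    have hMr : (0 : ℝ) < M := by exact_mod_cast hM
    have hDr : (0 : ℝ) < D := by exact_mod_cast hDp
    have hpr : (0 : ℝ) < phiStar D := by exact_mod_cast hph
    have h4 : (x : ℝ) / ((D * (M * phiStar D) : ℕ) : ℝ) =
        (x : ℝ) / M * (1 / ((D : ℝ) * (phiStar D : ℝ))) := by
      push_cast
      field_simp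
    rw [h4] at h3
    linarith
  have hsum : ∑ D ∈ F, ((((Finset.Icc 1 x).filter
        (fun n => D ∣ n ∧ M * phiStar D ∣ n - 1)).card : ℕ) : ℝ) ≤
        F.card + (x : ℝ) / M * (6 / z) := by
    refine (Finset.sum_le_sum hterm).trans ?_
    rw [Finset.sum_add_distrib, ← Finset.mul_sum]
    have h5 := sum_inv z hz T
    have h6 : (0 : ℝ) ≤ (x : ℝ) / M := by positivity
    have h7 := mul_le_mul_of_nonneg_left h5 h6
    simp only [Finset.sum_const, nsmul_eq_mul, mul_one]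
    linarith
  have hFc : (F.card : ℝ) ≤ T := by
    have h8 : F.card ≤ (Finset.Icc 1 T).card := Finset.card_filter_le _ _
    rw [Nat.card_Icc] at h8
    have h9 : F.card ≤ T := by omega
    exact_mod_cast h9
  calc (((Finset.Icc 1 x).filter (fun n => ∃ D : ℕ, 1 ≤ D ∧ D ≤ T ∧ Odd D ∧ z < (D : ℝ) ∧ D ∣ n ∧
      M * phiStar D ∣ n - 1)).card : ℝ)
      ≤ ((∑ D ∈ F, ((Finset.Icc 1 x).filter
        (fun n => D ∣ n ∧ M * phiStar D ∣ n - 1)).card : ℕ) : ℝ) := by exact_mod_cast hc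
    _ = ∑ D ∈ F, ((((Finset.Icc 1 x).filter
        (fun n => D ∣ n ∧ M * phiStar D ∣ n - 1)).card : ℕ) : ℝ) := by push_cast; rfl
    _ ≤ F.card + (x : ℝ) / M * (6 / z) := hsum
    _ ≤ T + (x : ℝ) / M * (6 / z) := by linarith

open Classical in
/-- Counting by a divisor `D` in a set `F`, each class bounded by `K`. -/
theorem Block_coverF (x : ℕ) (F : Finset ℕ) (hF : ∀ D ∈ F, 0 < D) (K : ℝ)
    (hK : ∀ D ∈ F, (x : ℝ) / ((D : ℝ) * (phiStar D : ℝ)) ≤ K) :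
    (((Finset.Icc 1 x).filter (fun n => ∃ D ∈ F, D ∣ n ∧ phiStar D ∣ n - 1)).card : ℝ) ≤
      F.card * (1 + K) := by
  have hsub : (Finset.Icc 1 x).filter (fun n => ∃ D ∈ F, D ∣ n ∧ phiStar D ∣ n - 1) ⊆
      F.biUnion (fun D => (Finset.Icc 1 x).filter (fun n => D ∣ n ∧ phiStar D ∣ n - 1)) := by
    intro n hn
    rw [Finset.mem_filter] at hn
    obtain ⟨hn1, D, h1, h5, h6⟩ := hn
    rw [Finset.mem_biUnion]
    refine ⟨D, h1, ?_⟩
    rw [Finset.mem_filter]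
    exact ⟨hn1, h5, h6⟩
  have hc := (Finset.card_le_card hsub).trans Finset.card_biUnion_le
  have hterm : ∀ D ∈ F, ((((Finset.Icc 1 x).filter
        (fun n => D ∣ n ∧ phiStar D ∣ n - 1)).card : ℕ) : ℝ) ≤ 1 + K := by
    intro D hD
    have hDp : 0 < D := hF D hD
    have hph := Block_phi_pos D (by omega)
    have hcc := count_class x D (phiStar D) hDp hph
    have hcc2 : ((((Finset.Icc 1 x).filter
        (fun n => D ∣ n ∧ phiStar D ∣ n - 1)).card : ℕ) : ℝ) ≤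
        ((x / (D * phiStar D) : ℕ) : ℝ) + 1 := by
      exact_mod_cast hcc
    refine hcc2.trans ?_
    have h3 : ((x / (D * phiStar D) : ℕ) : ℝ) ≤ (x : ℝ) / ((D * phiStar D : ℕ) : ℝ) :=
      Nat.cast_div_le
    have h4 := hK D hD
    push_cast at h3
    linarith
  calc (((Finset.Icc 1 x).filter (fun n => ∃ D ∈ F, D ∣ n ∧ phiStar D ∣ n - 1)).card : ℝ)
      ≤ ((∑ D ∈ F, ((Finset.Icc 1 x).filter
        (fun n => D ∣ n ∧ phiStar D ∣ n - 1)).card : ℕ) : ℝ) := by exact_mod_cast hc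
    _ = ∑ D ∈ F, ((((Finset.Icc 1 x).filter
        (fun n => D ∣ n ∧ phiStar D ∣ n - 1)).card : ℕ) : ℝ) := by push_cast; rfl
    _ ≤ ∑ D ∈ F, (1 + K) := Finset.sum_le_sum hterm
    _ = F.card * (1 + K) := by rw [Finset.sum_const, nsmul_eq_mul]

open Classical in
theorem Block_A1 (x T s w R : ℕ) (hT : 1 ≤ T) (h2 : x ≤ 4 * (2 ^ s * T ^ 2)) (hR1 : 1 ≤ R)
    (hs : 2 ^ s ≤ R + 1) (hw : (R + 1) ^ 6 ≤ 2 ^ w) :
    (((Finset.Icc 1 x).filter (fun n => ∃ D : ℕ, 1 ≤ D ∧ D ≤ T ∧ Odd D ∧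
      (T : ℝ) / (2 * R) < (D : ℝ) ∧ D ∣ n ∧ 2 ^ w * phiStar D ∣ n - 1)).card : ℝ) ≤ 49 * T := by
  have hTr : (1 : ℝ) ≤ T := by exact_mod_cast hT
  have hRr : (1 : ℝ) ≤ R := by exact_mod_cast hR1
  have hz : (0 : ℝ) < (T : ℝ) / (2 * R) := by positivity
  have h := Block_coverD x T (2 ^ w) (by positivity) ((T : ℝ) / (2 * R)) hz
  refine h.trans ?_
  have h3 : R * 2 ^ s ≤ 2 ^ w := by
    calc R * 2 ^ s ≤ (R + 1) * (R + 1) := Nat.mul_le_mul (by omega) hs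
      _ = (R + 1) ^ 2 := by ring
      _ ≤ (R + 1) ^ 6 := Nat.pow_le_pow_right (by omega) (by omega)
      _ ≤ 2 ^ w := hw
  have h4 : 12 * R * x ≤ 48 * T ^ 2 * 2 ^ w := by
    calc 12 * R * x ≤ 12 * R * (4 * (2 ^ s * T ^ 2)) := Nat.mul_le_mul_left _ h2
      _ = 48 * T ^ 2 * (R * 2 ^ s) := by ring
      _ ≤ 48 * T ^ 2 * 2 ^ w := Nat.mul_le_mul_left _ h3
  have h5 : (12 : ℝ) * R * x ≤ 48 * T ^ 2 * 2 ^ w := by exact_mod_cast h4
  have h6 : (x : ℝ) / ((2 ^ w : ℕ) : ℝ) * (6 / ((T : ℝ) / (2 * R))) =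
      (12 * R * x) / (T * 2 ^ w) := by
    push_cast
    field_simp
    ring
  rw [h6]
  have h7 : (12 * R * x) / ((T : ℝ) * 2 ^ w) ≤ 48 * T := by
    rw [div_le_iff₀ (by positivity)]
    calc (12 : ℝ) * R * x ≤ 48 * T ^ 2 * 2 ^ w := h5
      _ = 48 * T * (T * 2 ^ w) := by ring
  linarith

open Classical in
theorem Block_B1 (x T s w : ℕ) (hT : 1 ≤ T) (h2 : x ≤ 4 * (2 ^ s * T ^ 2)) (hw1 : 1 ≤ w) :
    (((Finset.Icc 1 x).filter (fun n => ∃ D : ℕ, 1 ≤ D ∧ D ≤ T ∧ Odd D ∧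
      (T : ℝ) / (4 * w) < (D : ℝ) ∧ D ∣ n ∧ 2 ^ s * phiStar D ∣ n - 1)).card : ℝ) ≤
      T + 96 * w * T := by
  have hTr : (1 : ℝ) ≤ T := by exact_mod_cast hT
  have hwr : (1 : ℝ) ≤ w := by exact_mod_cast hw1
  have hz : (0 : ℝ) < (T : ℝ) / (4 * w) := by positivity
  have h := Block_coverD x T (2 ^ s) (by positivity) ((T : ℝ) / (4 * w)) hz
  refine h.trans ?_
  have h4 : 24 * w * x ≤ 96 * w * T * (T * 2 ^ s) := by
    calc 24 * w * x ≤ 24 * w * (4 * (2 ^ s * T ^ 2)) := Nat.mul_le_mul_left _ h2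
      _ = 96 * w * T * (T * 2 ^ s) := by ring
  have h5 : (24 : ℝ) * w * x ≤ 96 * w * T * (T * 2 ^ s) := by exact_mod_cast h4
  have h6 : (x : ℝ) / ((2 ^ s : ℕ) : ℝ) * (6 / ((T : ℝ) / (4 * w))) =
      (24 * w * x) / (T * 2 ^ s) := by
    push_cast
    field_simp
    ring
  rw [h6]
  have h7 : (24 * w * x) / ((T : ℝ) * 2 ^ s) ≤ 96 * w * T := by
    rw [div_le_iff₀ (by positivity)]
    exact h5
  linarith

open Classical in
theorem Block_A2 (x T s w R : ℕ) (hT : 1 ≤ T) (h2 : x ≤ 4 * (2 ^ s * T ^ 2)) (hTx : 2 * T ≤ x)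
    (hR : ∀ n : ℕ, 1 ≤ n → n ≤ x → om n ≤ R) (hs : 2 ^ s ≤ R + 1)
    (hw : (R + 1) ^ 6 ≤ 2 ^ w) (hlog : 1 + Real.log T ≤ R + 1) :
    (((Finset.Icc 1 x).filter (fun n => ∃ D ∈ (Finset.Icc 1 T).filter
      (fun D => w ≤ om D ∧ T < 2 * R * D), D ∣ n ∧ phiStar D ∣ n - 1)).card : ℝ) ≤ 17 * T := by
  set F : Finset ℕ := (Finset.Icc 1 T).filter (fun D => w ≤ om D ∧ T < 2 * R * D) with hF
  have hFpos : ∀ D ∈ F, 0 < D := by
    intro D hD
    rw [hF, Finset.mem_filter, Finset.mem_Icc] at hD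
    omega
  have hK : ∀ D ∈ F, (x : ℝ) / ((D : ℝ) * (phiStar D : ℝ)) ≤ ((16 * R ^ 2 * (R + 1) ^ 2 : ℕ) : ℝ) := by
    intro D hD
    have hDp := hFpos D hD
    rw [hF, Finset.mem_filter, Finset.mem_Icc] at hD
    obtain ⟨⟨h3, h4⟩, h5, h6⟩ := hD
    have hph := Block_phi_pos D (by omega)
    have h7 : D ≤ (R + 1) * phiStar D := by
      have h8 := le_phiStar D (by omega)
      have h9 : om D ≤ R := hR D h3 (by omega)
      exact h8.trans (Nat.mul_le_mul_right _ (by omega))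
    have h10 : x ≤ 16 * R ^ 2 * (R + 1) ^ 2 * (D * phiStar D) := by
      calc x ≤ 4 * (2 ^ s * T ^ 2) := h2
        _ ≤ 4 * ((R + 1) * (2 * R * D) ^ 2) := by gcongr
        _ = 16 * R ^ 2 * (R + 1) * (D * D) := by ring
        _ ≤ 16 * R ^ 2 * (R + 1) * (D * ((R + 1) * phiStar D)) := by gcongr
        _ = 16 * R ^ 2 * (R + 1) ^ 2 * (D * phiStar D) := by ring
    have hDr : (0 : ℝ) < D := by exact_mod_cast hDp
    have hpr : (0 : ℝ) < phiStar D := by exact_mod_cast hph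
    rw [div_le_iff₀ (by positivity)]
    exact_mod_cast h10
  refine (Block_coverF x F hFpos _ hK).trans ?_
  have hF1 : (F.card : ℝ) * 2 ^ w ≤ T * (R + 1) := by
    have h3 := many T w hT
    have h4 : F.card ≤ ((Finset.Icc 1 T).filter (fun D => w ≤ om D)).card := by
      apply Finset.card_le_card
      intro D hD
      rw [hF, Finset.mem_filter] at hD
      rw [Finset.mem_filter]
      exact ⟨hD.1, hD.2.1⟩
    have h5 : (F.card : ℝ) ≤ (((Finset.Icc 1 T).filter (fun D => w ≤ om D)).card : ℝ) := by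
      exact_mod_cast h4
    calc (F.card : ℝ) * 2 ^ w ≤ (((Finset.Icc 1 T).filter (fun D => w ≤ om D)).card : ℝ) * 2 ^ w := by
          gcongr
      _ ≤ T * (1 + Real.log T) := h3
      _ ≤ T * (R + 1) := by gcongr
  have hwr : ((R : ℝ) + 1) ^ 6 ≤ 2 ^ w := by exact_mod_cast hw
  have hF2 : (F.card : ℝ) * (R + 1) ^ 4 ≤ T := by
    have hRp : (0 : ℝ) < (R : ℝ) + 1 := by positivity
    have h3 : (F.card : ℝ) * (R + 1) ^ 5 * (R + 1) ≤ T * (R + 1) := by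
      calc (F.card : ℝ) * ((R : ℝ) + 1) ^ 5 * ((R : ℝ) + 1)
          = (F.card : ℝ) * ((R : ℝ) + 1) ^ 6 := by ring
        _ ≤ (F.card : ℝ) * 2 ^ w := by gcongr
        _ ≤ (T : ℝ) * ((R : ℝ) + 1) := hF1
    have h4 : (F.card : ℝ) * (R + 1) ^ 5 ≤ T := le_of_mul_le_mul_right h3 hRp
    have h5 : (F.card : ℝ) * (R + 1) ^ 4 ≤ F.card * (R + 1) ^ 5 := by
      have hR1 : (1 : ℝ) ≤ (R : ℝ) + 1 := by
        have : (0 : ℝ) ≤ R := Nat.cast_nonneg _
        linarith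
      gcongr
      · norm_num
    linarith
  have h6 : (1 : ℝ) + ((16 * R ^ 2 * (R + 1) ^ 2 : ℕ) : ℝ) ≤ 17 * ((R : ℝ) + 1) ^ 4 := by
    have h7 : 1 + 16 * R ^ 2 * (R + 1) ^ 2 ≤ 17 * (R + 1) ^ 4 := by
      have h8 : 1 ≤ (R + 1) ^ 4 := Nat.one_le_pow _ _ (by omega)
      have h9 : 16 * R ^ 2 * (R + 1) ^ 2 ≤ 16 * (R + 1) ^ 4 := by
        calc 16 * R ^ 2 * (R + 1) ^ 2 ≤ 16 * (R + 1) ^ 2 * (R + 1) ^ 2 := by gcongr; omega
          _ = 16 * (R + 1) ^ 4 := by ring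
      omega
    exact_mod_cast h7
  calc (F.card : ℝ) * (1 + ((16 * R ^ 2 * (R + 1) ^ 2 : ℕ) : ℝ))
      ≤ F.card * (17 * ((R : ℝ) + 1) ^ 4) := by gcongr
    _ = 17 * (F.card * ((R : ℝ) + 1) ^ 4) := by ring
    _ ≤ 17 * T := by gcongr

open Classical in
theorem Block_B2 (x T s w : ℕ) (hT : 1 ≤ T) (h1 : 2 ^ s * T ^ 2 ≤ x) :
    (((Finset.Icc 1 x).filter (fun n => ∃ D ∈ (Finset.Icc 1 (16 * w * 2 ^ s * T)).filter
      (fun D => om D < s ∧ x < 2 * T * D), D ∣ n ∧ phiStar D ∣ n - 1)).card : ℝ) ≤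
      (1 + 4 * s) * (((Finset.Icc 1 (16 * w * 2 ^ s * T)).filter (fun m => om m < s)).card : ℝ) := by
  set F : Finset ℕ := (Finset.Icc 1 (16 * w * 2 ^ s * T)).filter
    (fun D => om D < s ∧ x < 2 * T * D) with hF
  have hFpos : ∀ D ∈ F, 0 < D := by
    intro D hD
    rw [hF, Finset.mem_filter, Finset.mem_Icc] at hD
    omega
  have hxT : T ^ 2 ≤ x := by
    calc T ^ 2 = 1 * T ^ 2 := by ring
      _ ≤ 2 ^ s * T ^ 2 := Nat.mul_le_mul_right _ Nat.one_le_two_pow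
      _ ≤ x := h1
  have hK : ∀ D ∈ F, (x : ℝ) / ((D : ℝ) * (phiStar D : ℝ)) ≤ ((4 * s : ℕ) : ℝ) := by
    intro D hD
    have hDp := hFpos D hD
    rw [hF, Finset.mem_filter, Finset.mem_Icc] at hD
    obtain ⟨⟨h3, h4⟩, h5, h6⟩ := hD
    have hph := Block_phi_pos D (by omega)
    have h7 : D ≤ s * phiStar D := by
      have h8 := le_phiStar D (by omega)
      exact h8.trans (Nat.mul_le_mul_right _ (by omega))
    have h9 : x * T ^ 2 ≤ (4 * (D * D)) * T ^ 2 := by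
      calc x * T ^ 2 ≤ x * x := Nat.mul_le_mul_left _ hxT
        _ ≤ (2 * T * D) * (2 * T * D) := Nat.mul_le_mul h6.le h6.le
        _ = (4 * (D * D)) * T ^ 2 := by ring
    have h10 : x ≤ 4 * (D * D) := Nat.le_of_mul_le_mul_right h9 (by positivity)
    have h11 : x ≤ 4 * s * (D * phiStar D) := by
      calc x ≤ 4 * (D * D) := h10
        _ ≤ 4 * (D * (s * phiStar D)) := by gcongr
        _ = 4 * s * (D * phiStar D) := by ring
    have hDr : (0 : ℝ) < D := by exact_mod_cast hDp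
    have hpr : (0 : ℝ) < phiStar D := by exact_mod_cast hph
    rw [div_le_iff₀ (by positivity)]
    exact_mod_cast h11
  refine (Block_coverF x F hFpos _ hK).trans ?_
  have h4 : F.card ≤ ((Finset.Icc 1 (16 * w * 2 ^ s * T)).filter (fun m => om m < s)).card := by
    apply Finset.card_le_card
    intro D hD
    rw [hF, Finset.mem_filter] at hD
    rw [Finset.mem_filter]
    exact ⟨hD.1, hD.2.1⟩
  have h5 : (F.card : ℝ) ≤ (((Finset.Icc 1 (16 * w * 2 ^ s * T)).filter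
      (fun m => om m < s)).card : ℝ) := by
    exact_mod_cast h4
  push_cast
  rw [mul_comm]
  gcongr

theorem Block_om_pos (n : ℕ) (hn : 2 ≤ n) : 1 ≤ om n := by
  unfold om
  rw [Nat.one_le_iff_ne_zero]
  intro h
  rw [Finset.card_eq_zero, Nat.primeFactors_eq_empty] at h
  omega

open Classical in
/-- The case distinction. -/
theorem Block_cases (x T s w R : ℕ) (hT : 1 ≤ T) (h2 : x ≤ 4 * (2 ^ s * T ^ 2)) (hTx : 2 * T ≤ x)
    (hR : ∀ n : ℕ, 1 ≤ n → n ≤ x → om n ≤ R) (hR1 : 1 ≤ R) (hw1 : 1 ≤ w) (n : ℕ)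
    (hn : n ∈ (Finset.Icc 1 x).filter (fun n => n ∈ Exc ∧ x < 2 * n)) :
    n ∈ ((Finset.Icc 1 x).filter (fun n => ∃ D : ℕ, 1 ≤ D ∧ D ≤ T ∧ Odd D ∧
      (T : ℝ) / (2 * R) < (D : ℝ) ∧ D ∣ n ∧ 2 ^ w * phiStar D ∣ n - 1)) ∪
     ((Finset.Icc 1 x).filter (fun n => ∃ D ∈ (Finset.Icc 1 T).filter
      (fun D => w ≤ om D ∧ T < 2 * R * D), D ∣ n ∧ phiStar D ∣ n - 1)) ∪
     (((Finset.Icc 1 x).filter (fun n => ∃ D : ℕ, 1 ≤ D ∧ D ≤ T ∧ Odd D ∧
      (T : ℝ) / (4 * w) < (D : ℝ) ∧ D ∣ n ∧ 2 ^ s * phiStar D ∣ n - 1)) ∪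
     ((Finset.Icc 1 x).filter (fun n => ∃ D ∈ (Finset.Icc 1 (16 * w * 2 ^ s * T)).filter
      (fun D => om D < s ∧ x < 2 * T * D), D ∣ n ∧ phiStar D ∣ n - 1))) := by
  rw [Finset.mem_filter] at hn
  obtain ⟨hn1, hE, hx2⟩ := hn
  have hn1' := Finset.mem_Icc.1 hn1
  have hodd := exc_odd n hE
  have hn2 : 2 ≤ n := hE.1
  have hdvd : phiStar n ∣ n - 1 := hE.2.1
  have homn := Block_om_pos n hn2
  have hTn : T < 2 * om n * n := by
    have h3 : 1 * n ≤ 2 * om n * n := Nat.mul_le_mul_right _ (by omega)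
    omega
  obtain ⟨D, C, hDC, hco, hDT, hTD⟩ := exists_div n hE T hT hTn
  have hD0 : D ≠ 0 := by
    rintro rfl
    rw [zero_mul] at hDC
    omega
  have hC0 : C ≠ 0 := by
    rintro rfl
    rw [mul_zero] at hDC
    omega
  have hom : om n = om D + om C := by
    rw [hDC]
    exact om_mul D C hD0 hC0 hco
  have hphi : phiStar n = phiStar D * phiStar C := by
    rw [hDC]
    exact phiStar_mul D C hD0 hC0 hco
  have hoddDC : Odd D ∧ Odd C := by
    rw [hDC] at hodd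
    exact Nat.odd_mul.1 hodd
  have hDn : D ∣ n := ⟨C, hDC⟩
  have hCn : C ∣ n := ⟨D, by rw [hDC, mul_comm]⟩
  have hpD : phiStar D ∣ n - 1 := (Dvd.intro _ hphi.symm).trans hdvd
  have hpC : phiStar C ∣ n - 1 := (Dvd.intro_left _ hphi.symm).trans hdvd
  have homR : om n ≤ R := hR n (by omega) hn1'.2
  have hD1 : 1 ≤ D := Nat.one_le_iff_ne_zero.2 hD0
  have hC1 : 1 ≤ C := Nat.one_le_iff_ne_zero.2 hC0
  have hpow : ∀ k : ℕ, k ≤ om C → 2 ^ k * phiStar D ∣ n - 1 := by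
    intro k hk
    have h3 : 2 ^ k ∣ phiStar C := (pow_dvd_pow 2 hk).trans (two_pow_dvd C hoddDC.2)
    have h4 : 2 ^ k * phiStar D ∣ phiStar C * phiStar D := Nat.mul_dvd_mul_right h3 _
    rw [mul_comm (phiStar C), ← hphi] at h4
    exact h4.trans hdvd
  by_cases hA : 2 * w < om n
  · have hTR : T < 2 * R * D := by
      refine lt_of_lt_of_le hTD ?_
      gcongr
    by_cases hA1 : w ≤ om C
    · apply Finset.mem_union_left
      apply Finset.mem_union_left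
      rw [Finset.mem_filter]
      refine ⟨hn1, D, hD1, hDT, hoddDC.1, ?_, hDn, hpow w hA1⟩
      have hRr : (1 : ℝ) ≤ R := by exact_mod_cast hR1
      rw [div_lt_iff₀ (by positivity)]
      have h5 : (T : ℝ) < 2 * R * D := by exact_mod_cast hTR
      linarith
    · apply Finset.mem_union_left
      apply Finset.mem_union_right
      rw [Finset.mem_filter]
      refine ⟨hn1, D, ?_, hDn, hpD⟩
      rw [Finset.mem_filter, Finset.mem_Icc]
      exact ⟨⟨hD1, hDT⟩, by omega, hTR⟩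
  · have hTw : T < 4 * w * D := by
      refine lt_of_lt_of_le hTD ?_
      apply Nat.mul_le_mul_right
      omega
    by_cases hB1 : s ≤ om C
    · apply Finset.mem_union_right
      apply Finset.mem_union_left
      rw [Finset.mem_filter]
      refine ⟨hn1, D, hD1, hDT, hoddDC.1, ?_, hDn, hpow s hB1⟩
      have hwr : (1 : ℝ) ≤ w := by exact_mod_cast hw1
      rw [div_lt_iff₀ (by positivity)]
      have h5 : (T : ℝ) < 4 * w * D := by exact_mod_cast hTw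
      linarith
    · apply Finset.mem_union_right
      apply Finset.mem_union_right
      rw [Finset.mem_filter]
      refine ⟨hn1, C, ?_, hCn, hpC⟩
      rw [Finset.mem_filter, Finset.mem_Icc]
      refine ⟨⟨hC1, ?_⟩, by omega, ?_⟩
      · have h6 : C * T ≤ 16 * w * 2 ^ s * T * T := by
          calc C * T ≤ C * (4 * w * D) := Nat.mul_le_mul_left _ hTw.le
            _ = 4 * w * (D * C) := by ring
            _ = 4 * w * n := by rw [← hDC]
            _ ≤ 4 * w * (4 * (2 ^ s * T ^ 2)) := Nat.mul_le_mul_left _ (hn1'.2.trans h2)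
            _ = 16 * w * 2 ^ s * T * T := by ring
        exact Nat.le_of_mul_le_mul_right h6 (by omega)
      · calc x < 2 * n := hx2
          _ = 2 * (D * C) := by rw [← hDC]
          _ ≤ 2 * (T * C) := by gcongr
          _ = 2 * T * C := by ring

open Classical in
theorem block (x T s w R : ℕ) (hT : 1 ≤ T) (h1 : 2 ^ s * T ^ 2 ≤ x) (h2 : x ≤ 4 * (2 ^ s * T ^ 2))
    (hTx : 2 * T ≤ x) (hR : ∀ n : ℕ, 1 ≤ n → n ≤ x → om n ≤ R) (hs : 2 ^ s ≤ R + 1)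
    (hw : (R + 1) ^ 6 ≤ 2 ^ w) (hlog : 1 + Real.log T ≤ R + 1) :
    (((Finset.Icc 1 x).filter (fun n => n ∈ Exc ∧ x < 2 * n)).card : ℝ) ≤
      (67 + 96 * w) * T +
        (1 + 4 * s) * (((Finset.Icc 1 (16 * w * 2 ^ s * T)).filter (fun m => om m < s)).card : ℝ) := by
  have hR1 : 1 ≤ R := (Block_om_pos 2 le_rfl).trans (hR 2 (by omega) (by omega))
  have hw1 : 1 ≤ w := by
    rw [Nat.one_le_iff_ne_zero]
    rintro rfl
    have h3 : 2 ^ 6 ≤ (R + 1) ^ 6 := Nat.pow_le_pow_left (by omega) 6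
    omega
  have hsub := Finset.card_le_card (fun n hn => Block_cases x T s w R hT h2 hTx hR hR1 hw1 n hn)
  have hA1 := Block_A1 x T s w R hT h2 hR1 hs hw
  have hA2 := Block_A2 x T s w R hT h2 hTx hR hs hw hlog
  have hB1 := Block_B1 x T s w hT h2 hw1
  have hB2 := Block_B2 x T s w hT h1
  have hU := (hsub.trans (Finset.card_union_le _ _)).trans
    (add_le_add (Finset.card_union_le _ _) (Finset.card_union_le _ _))
  have hUr := (Nat.cast_le (α := ℝ)).2 hU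
  push_cast at hUr
  linarith

end SUB
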