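import Pool.Agent.helper23.SUB.Defs

set_option autoImplicit false

/-!
Subbarao, module SUB-Comb.

`dense_prod`: induction with `Finset.induction_on_max`.  For `s = insert q s'`, `q` above all of `s'`:
if `T < G ∏ s'` use the hypothesis for `s'`; else `T ≥ G ∏ s' ≥ q`, so `1 ≤ T / q < G ∏ s'` and the `t`
for `T / q` gives `insert q t`.

`comp_le`: `s₁ = {q' ∈ s, q' < q}`, `s₂ = {q' ∈ s, q ≤ q'}`, `A = ∏ s₁`, `B = ∏ s₂`, `F_A`, `F_B` the products of
the `q' - 1`, so `k F_A F_B = A B - 1`.  If `k F_A ≤ A` then `A B - 1 ≤ A (B - 1)`, so `A = 1`, `s₁` is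
empty, `k = 1` and `∏_s (q' - 1) = ∏_s q' - 1`, impossible for two or more elements
(`(q₀ - 1) F' ≤ (q₀ - 1) B' ≤ B - 2`).  So `k F_A ≥ A + 1` and `(A + 1) F_B < A B`.  By
`∏ (1 - 1/q') ≥ 1 - ∑ 1/q'` one has `q F_B ≥ B (q - |s₂|)`; hence `(A + 1)(q - |s₂|) < q A`, that is
`q < (A + 1) |s₂| ≤ 2 |s| A`.
-/

namespace SUB

theorem dense_prod (s : Finset ℕ) (hs : ∀ q ∈ s, 2 ≤ q) (G : ℕ) (hG : 1 ≤ G)
    (h : ∀ q ∈ s, q ≤ G * ∏ q' ∈ s.filter (fun q' => q' < q), q')
    (T : ℕ) (hT : 1 ≤ T) (hT2 : T < G * ∏ q ∈ s, q) :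
    ∃ t ⊆ s, ∏ q ∈ t, q ≤ T ∧ T < G * ∏ q ∈ t, q := by
  induction s using Finset.induction_on_max generalizing T with
  | empty =>
    refine ⟨∅, Finset.Subset.refl _, ?_, hT2⟩
    simpa using hT
  | insert q s' hmax ih =>
    have hqs : q ∉ s' := fun hq => lt_irrefl _ (hmax q hq)
    have hs' : ∀ q' ∈ s', 2 ≤ q' := fun q' hq' => hs q' (Finset.mem_insert_of_mem hq')
    have h' : ∀ q'' ∈ s', q'' ≤ G * ∏ q' ∈ s'.filter (fun q' => q' < q''), q' := by
      intro q'' hq''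
      have := h q'' (Finset.mem_insert_of_mem hq'')
      rwa [Finset.filter_insert, if_neg (not_lt.mpr (hmax q'' hq'').le)] at this
    have hq : q ≤ G * ∏ q' ∈ s', q' := by
      have := h q (Finset.mem_insert_self q s')
      rw [Finset.filter_insert, if_neg (lt_irrefl q),
        Finset.filter_true_of_mem (fun x hx => hmax x hx)] at this
      exact this
    have hq2 : 2 ≤ q := hs q (Finset.mem_insert_self q s')
    rcases lt_or_ge T (G * ∏ q ∈ s', q) with hlt | hge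
    · obtain ⟨t, ht, h1, h2⟩ := ih hs' h' T hT hlt
      exact ⟨t, ht.trans (Finset.subset_insert q s'), h1, h2⟩
    · have hTq : q ≤ T := hq.trans hge
      have hq0 : 0 < q := by omega
      have hd1 : 1 ≤ T / q := Nat.div_pos hTq hq0
      have hd2 : T / q < G * ∏ q ∈ s', q := by
        rw [Nat.div_lt_iff_lt_mul hq0]
        rw [Finset.prod_insert hqs] at hT2
        calc T < G * (q * ∏ q ∈ s', q) := hT2
          _ = (G * ∏ q ∈ s', q) * q := by ring
      obtain ⟨t, ht, h1, h2⟩ := ih hs' h' (T / q) hd1 hd2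
      have hqt : q ∉ t := fun hq => hqs (ht hq)
      refine ⟨insert q t, Finset.insert_subset_insert q ht, ?_, ?_⟩
      · rw [Finset.prod_insert hqt]
        calc q * ∏ q ∈ t, q ≤ q * (T / q) := Nat.mul_le_mul_left q h1
          _ ≤ T := Nat.mul_div_le T q
      · rw [Finset.prod_insert hqt]
        have h3 : T < q * (T / q + 1) := by
          have := Nat.lt_mul_div_succ T hq0
          simpa using this
        calc T < q * (T / q + 1) := h3
          _ ≤ q * (G * ∏ q ∈ t, q) := Nat.mul_le_mul_left q h2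
          _ = G * (q * ∏ q ∈ t, q) := by ring

theorem comb_prod_le (s : Finset ℕ) : ∏ q ∈ s, (q - 1) ≤ ∏ q ∈ s, q :=
  Finset.prod_le_prod (fun _ _ => Nat.zero_le _) (fun i _ => Nat.sub_le i 1)

theorem comb_prod_pos (s : Finset ℕ) (hs : ∀ q ∈ s, 2 ≤ q) : 1 ≤ ∏ q ∈ s, (q - 1) :=
  Nat.one_le_iff_ne_zero.mpr (Finset.prod_ne_zero_iff.mpr (fun i hi => by
    have := hs i hi; omega))

theorem comb_prod_succ_le (s : Finset ℕ) (hs : ∀ q ∈ s, 2 ≤ q) (hne : s.Nonempty) :
    ∏ q ∈ s, (q - 1) + 1 ≤ ∏ q ∈ s, q := by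
  obtain ⟨a, ha⟩ := hne
  rw [← Finset.mul_prod_erase s (fun q => q - 1) ha, ← Finset.mul_prod_erase s (fun q => q) ha]
  have h1 := comb_prod_le (s.erase a)
  have h2 := comb_prod_pos (s.erase a) (fun q hq => hs q (Finset.mem_of_mem_erase hq))
  have ha2 := hs a ha
  obtain ⟨b, rfl⟩ : ∃ b, a = b + 1 := ⟨a - 1, by omega⟩
  simp only [Nat.add_sub_cancel]
  nlinarith [Nat.mul_le_mul_left b h1]

theorem comb_prod_two_le (s : Finset ℕ) (hs : ∀ q ∈ s, 2 ≤ q) (hc : 2 ≤ s.card) :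
    ∏ q ∈ s, (q - 1) + 2 ≤ ∏ q ∈ s, q := by
  obtain ⟨a, ha⟩ : s.Nonempty := Finset.card_pos.mp (by omega)
  have hne : (s.erase a).Nonempty := by
    apply Finset.card_pos.mp
    rw [Finset.card_erase_of_mem ha]; omega
  rw [← Finset.mul_prod_erase s (fun q => q - 1) ha, ← Finset.mul_prod_erase s (fun q => q) ha]
  have h1 := comb_prod_succ_le (s.erase a) (fun q hq => hs q (Finset.mem_of_mem_erase hq)) hne
  have h2 := comb_prod_pos (s.erase a) (fun q hq => hs q (Finset.mem_of_mem_erase hq))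
  have ha2 := hs a ha
  obtain ⟨b, rfl⟩ : ∃ b, a = b + 1 := ⟨a - 1, by omega⟩
  simp only [Nat.add_sub_cancel]
  have hb : 1 ≤ b := by omega
  nlinarith [Nat.mul_le_mul_left b h1]

theorem comb_union_bound (q : ℕ) (s : Finset ℕ) (hs : ∀ r ∈ s, 2 ≤ r ∧ q ≤ r) :
    ((∏ r ∈ s, r : ℕ) : ℤ) * ((q : ℤ) - s.card) ≤ q * ((∏ r ∈ s, (r - 1) : ℕ) : ℤ) := by
  induction s using Finset.induction_on with
  | empty => simp
  | insert a s ha ih =>
    have ih' := ih (fun r hr => hs r (Finset.mem_insert_of_mem hr))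
    obtain ⟨ha2, haq⟩ := hs a (Finset.mem_insert_self a s)
    rw [Finset.prod_insert ha, Finset.prod_insert ha, Finset.card_insert_of_notMem ha]
    obtain ⟨b, rfl⟩ : ∃ b, a = b + 1 := ⟨a - 1, by omega⟩
    simp only [Nat.add_sub_cancel]
    push_cast at ih' ⊢
    have hb : (1 : ℤ) ≤ b := by exact_mod_cast (by omega : 1 ≤ b)
    have hq : (q : ℤ) ≤ (b : ℤ) + 1 := by exact_mod_cast haq
    have hB : (0 : ℤ) ≤ ∏ r ∈ s, (r : ℤ) := Finset.prod_nonneg (fun i _ => by positivity)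
    have hc : (0 : ℤ) ≤ (s.card : ℤ) := by positivity
    have h1 := mul_le_mul_of_nonneg_left ih' (by linarith : (0 : ℤ) ≤ b)
    have h2 : (0 : ℤ) ≤ (∏ r ∈ s, (r : ℤ)) * ((b : ℤ) + 1 - q + s.card) :=
      mul_nonneg hB (by linarith)
    nlinarith [h1, h2]

theorem comp_le (s : Finset ℕ) (hs : ∀ q ∈ s, 2 ≤ q) (hc : 2 ≤ s.card) (k : ℕ)
    (hk : k * ∏ q ∈ s, (q - 1) = ∏ q ∈ s, q - 1) (q : ℕ) (hq : q ∈ s) :
    q ≤ (2 * s.card) * ∏ q' ∈ s.filter (fun q' => q' < q), q' := by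
  classical
  set s1 := s.filter (fun q' => q' < q) with hs1
  set s2 := s.filter (fun q' => ¬ q' < q) with hs2
  have hA : (∏ r ∈ s1, r) * ∏ r ∈ s2, r = ∏ r ∈ s, r :=
    Finset.prod_filter_mul_prod_filter_not s _ _
  have hF : (∏ r ∈ s1, (r - 1)) * ∏ r ∈ s2, (r - 1) = ∏ r ∈ s, (r - 1) :=
    Finset.prod_filter_mul_prod_filter_not s _ _
  have hs1m : ∀ r ∈ s1, 2 ≤ r := fun r hr => hs r (Finset.mem_of_mem_filter r hr)
  have hs2m : ∀ r ∈ s2, 2 ≤ r := fun r hr => hs r (Finset.mem_of_mem_filter r hr)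
  have hq2 : q ∈ s2 := Finset.mem_filter.mpr ⟨hq, lt_irrefl q⟩
  have hB2 := comb_prod_succ_le s2 hs2m ⟨q, hq2⟩
  have hFA := comb_prod_pos s1 hs1m
  have hFB := comb_prod_pos s2 hs2m
  have hcard : s2.card ≤ s.card := Finset.card_le_card (Finset.filter_subset _ _)
  have htot := comb_prod_two_le s hs hc
  have hub := comb_union_bound q s2 (fun r hr => ⟨hs2m r hr, by
    have := (Finset.mem_filter.mp hr).2; omega⟩)
  rw [← hA, ← hF] at hk
  rw [← hA, ← hF] at htot
  have hA1 : 1 ≤ ∏ r ∈ s1, r := Nat.one_le_iff_ne_zero.mpr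
    (Finset.prod_ne_zero_iff.mpr (fun i hi => by have := hs1m i hi; omega))
  have hAne : s1.Nonempty → 2 ≤ ∏ r ∈ s1, r := by
    intro hne
    have := comb_prod_succ_le s1 hs1m hne
    omega
  have hAe : s1 = ∅ → (∏ r ∈ s1, (r - 1)) = 1 := by
    intro h; rw [h]; simp
  generalize hAA : (∏ r ∈ s1, r) = A at *
  generalize hBB : (∏ r ∈ s2, r) = B at *
  generalize hFFA : (∏ r ∈ s1, (r - 1)) = FA at *
  generalize hFFB : (∏ r ∈ s2, (r - 1)) = FB at *
  have hAB : 1 ≤ A * B := Nat.mul_pos hA1 (by omega)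
  have hk' : k * (FA * FB) + 1 = A * B := by omega
  rcases le_or_gt (k * FA) A with hle | hgt
  · exfalso
    have h1 : k * (FA * FB) ≤ A * FB := by
      calc k * (FA * FB) = (k * FA) * FB := by ring
        _ ≤ A * FB := Nat.mul_le_mul_right FB hle
    have h2 : A * (FB + 1) ≤ A * B := Nat.mul_le_mul_left A hB2
    have h3 : A ≤ 1 := by nlinarith
    have hA0 : A = 1 := le_antisymm h3 hA1
    have hempty : s1 = ∅ := by
      by_contra hne
      have := hAne (Finset.nonempty_iff_ne_empty.mpr hne)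
      omega
    have hFA1 := hAe hempty
    subst hA0
    rw [hFA1] at hk' hle htot
    have hk1 : k ≤ 1 := by omega
    have : k * (1 * FB) ≤ 1 * (1 * FB) := Nat.mul_le_mul_right _ hk1
    omega
  · have h1 : (A + 1) * FB + 1 ≤ A * B := by
      have : (A + 1) * FB ≤ k * FA * FB := Nat.mul_le_mul_right FB hgt
      have e : k * FA * FB = k * (FA * FB) := by ring
      omega
    have h1z : ((A : ℤ) + 1) * FB + 1 ≤ A * B := by exact_mod_cast h1
    have hAz : (1 : ℤ) ≤ A := by exact_mod_cast hA1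
    have hBz : (0 : ℤ) < B := by
      have : 0 < B := by omega
      exact_mod_cast this
    have hqz : (2 : ℤ) ≤ q := by exact_mod_cast hs q hq
    have hcz : (s2.card : ℤ) ≤ s.card := by exact_mod_cast hcard
    have h2 : ((A : ℤ) + 1) * (B * ((q : ℤ) - s2.card)) ≤ ((A : ℤ) + 1) * (q * FB) :=
      mul_le_mul_of_nonneg_left hub (by linarith)
    have h3 : (q : ℤ) * (((A : ℤ) + 1) * FB + 1) ≤ q * (A * B) :=
      mul_le_mul_of_nonneg_left h1z (by linarith)
    have h4 : (B : ℤ) * (((A : ℤ) + 1) * ((q : ℤ) - s2.card)) < B * (q * A) := by nlinarith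
    have h5 : ((A : ℤ) + 1) * ((q : ℤ) - s2.card) < q * A := lt_of_mul_lt_mul_left h4 hBz.le
    have h6 : (q : ℤ) < (A + 1) * s2.card := by nlinarith
    have hc0 : (0 : ℤ) ≤ s2.card := by positivity
    have h7 : ((A : ℤ) + 1) * s2.card ≤ (2 * A) * s2.card :=
      mul_le_mul_of_nonneg_right (by linarith) hc0
    have h8 : (2 * (A : ℤ)) * s2.card ≤ (2 * A) * s.card :=
      mul_le_mul_of_nonneg_left hcz (by linarith)
    have h9 : (q : ℤ) ≤ (2 * s.card) * A := by nlinarith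
    exact_mod_cast h9

/-- `q/(q-1)` multiplied over a set of integers `≥ 2` is at most the number of them plus one
(induction on the maximum, which is at least the number of elements plus one). -/
theorem prod_le_card_succ (s : Finset ℕ) (hs : ∀ q ∈ s, 2 ≤ q) :
    ∏ q ∈ s, q ≤ (s.card + 1) * ∏ q ∈ s, (q - 1) := by
  induction s using Finset.induction_on_max with
  | empty => simp
  | insert q s' hmax ih =>
    have hqs : q ∉ s' := fun hq => lt_irrefl _ (hmax q hq)
    have ih' := ih (fun q' hq' => hs q' (Finset.mem_insert_of_mem hq'))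
    have hq2 : 2 ≤ q := hs q (Finset.mem_insert_self q s')
    have hcard : s'.card + 2 ≤ q := by
      have hsub : s' ⊆ Finset.Ico 2 q := by
        intro x hx
        exact Finset.mem_Ico.mpr ⟨hs x (Finset.mem_insert_of_mem hx), hmax x hx⟩
      have := Finset.card_le_card hsub
      rw [Nat.card_Ico] at this
      omega
    rw [Finset.prod_insert hqs, Finset.prod_insert hqs, Finset.card_insert_of_notMem hqs]
    obtain ⟨b, rfl⟩ : ∃ b, q = b + 1 := ⟨q - 1, by omega⟩
    simp only [Nat.add_sub_cancel]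
    generalize (∏ q ∈ s', (q - 1)) = F at *
    generalize (∏ q ∈ s', q) = P at *
    generalize s'.card = c at *
    have hb : c + 1 ≤ b := by omega
    calc (b + 1) * P ≤ (b + 1) * ((c + 1) * F) := Nat.mul_le_mul_left _ ih'
      _ = ((b + 1) * (c + 1)) * F := by ring
      _ ≤ ((c + 1 + 1) * b) * F := Nat.mul_le_mul_right F (by nlinarith)
      _ = (c + 1 + 1) * (b * F) := by ring

end SUB
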