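import Mathlib

set_option autoImplicit false

namespace SUB

/-- The unitary totient: the product of `p^a - 1` over the exact prime power divisors of `n`. -/
def phiStar (n : ℕ) : ℕ := ∏ p ∈ n.primeFactors, (p ^ n.factorization p - 1)

/-- The counterexamples to Subbarao's conjecture. -/
def Exc : Set ℕ := {n | 2 ≤ n ∧ phiStar n ∣ n - 1 ∧ ¬ IsPrimePow n}

/-- The number of distinct prime divisors. -/
def om (n : ℕ) : ℕ := n.primeFactors.card

end SUB
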