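import Pool.Agent.helper23.SUB.Comb

set_option autoImplicit false

/-!
Subbarao, module SUB-Unit: unitary divisors of the elements of `Exc`.

The set of components of `n` is the image `s` of `n.primeFactors` under the injective map
`p ↦ p ^ n.factorization p`; `∏ s = n`, `∏_s (q - 1) = phiStar n`, `s.card = om n`, and for `t ⊆ s` the number
`D = ∏ t` divides `n`, is coprime to `n / D`, and `phiStar n = phiStar D * phiStar (n / D)`.
`exists_div`: apply `comp_le` and `dense_prod` with `G = 2 * om n`.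
-/

namespace SUB

private theorem unit_fac_left {a b p : ℕ} (ha : a ≠ 0) (hb : b ≠ 0) (h : Nat.Coprime a b)
    (hp : p ∈ a.primeFactors) : (a * b).factorization p = a.factorization p := by
  have hpp := Nat.prime_of_mem_primeFactors hp
  have hpa := Nat.dvd_of_mem_primeFactors hp
  have hpb : ¬ p ∣ b := by
    intro hpb
    have := Nat.dvd_gcd hpa hpb
    rw [h] at this
    exact hpp.one_lt.ne' (Nat.dvd_one.1 this)
  rw [Nat.factorization_mul ha hb, Finsupp.add_apply, Nat.factorization_eq_zero_of_not_dvd hpb, add_zero]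

theorem phiStar_mul (a b : ℕ) (ha : a ≠ 0) (hb : b ≠ 0) (h : Nat.Coprime a b) :
    phiStar (a * b) = phiStar a * phiStar b := by
  unfold phiStar
  rw [Nat.Coprime.primeFactors_mul h, Finset.prod_union h.disjoint_primeFactors]
  congr 1
  · exact Finset.prod_congr rfl fun p hp => by rw [unit_fac_left ha hb h hp]
  · exact Finset.prod_congr rfl fun p hp => by rw [mul_comm a b, unit_fac_left hb ha h.symm hp]

theorem om_mul (a b : ℕ) (ha : a ≠ 0) (hb : b ≠ 0) (h : Nat.Coprime a b) :
    om (a * b) = om a + om b := by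
  have _ := ha
  have _ := hb
  unfold om
  rw [Nat.Coprime.primeFactors_mul h, Finset.card_union_of_disjoint h.disjoint_primeFactors]

private theorem unit_two_le {n : ℕ} (hn : n ∈ Exc) : 2 ≤ om n := by
  obtain ⟨h1, -, h3⟩ := hn
  unfold om
  have h4 : n.primeFactors.card ≠ 1 := fun h => h3 (isPrimePow_iff_card_primeFactors_eq_one.2 h)
  have h5 : n.primeFactors.card ≠ 0 := by
    intro h
    rw [Finset.card_eq_zero, Nat.primeFactors_eq_empty] at h
    omega
  omega

private theorem unit_even {n p : ℕ} (hp : p ∈ n.primeFactors) (h2 : p ≠ 2) :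
    2 ∣ p ^ n.factorization p - 1 := by
  have hpp := Nat.prime_of_mem_primeFactors hp
  have ho : Odd (p ^ n.factorization p) := (hpp.odd_of_ne_two h2).pow
  obtain ⟨k, hk⟩ := ho
  exact ⟨k, by omega⟩

/-- Elements of `Exc` are odd. -/
theorem exc_odd (n : ℕ) (hn : n ∈ Exc) : Odd n := by
  have h2 := unit_two_le hn
  obtain ⟨h1, h3, -⟩ := hn
  rw [← Nat.not_even_iff_odd]
  intro he
  unfold om at h2
  obtain ⟨p, hp, hp2⟩ := Finset.exists_mem_ne (show 1 < n.primeFactors.card by omega) 2
  have h4 : 2 ∣ phiStar n := by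
    unfold phiStar
    exact (unit_even hp hp2).trans (Finset.dvd_prod_of_mem (fun p => p ^ n.factorization p - 1) hp)
  have h5 : 2 ∣ n - 1 := h4.trans h3
  obtain ⟨k, hk⟩ := he
  omega

/-- `2 ^ ω(n)` divides the unitary totient of an odd number. -/
theorem two_pow_dvd (n : ℕ) (hn : Odd n) : 2 ^ om n ∣ phiStar n := by
  unfold om phiStar
  rw [← Finset.prod_const]
  apply Finset.prod_dvd_prod_of_dvd
  intro p hp
  apply unit_even hp
  rintro rfl
  have h1 := Nat.dvd_of_mem_primeFactors hp
  obtain ⟨k, hk⟩ := hn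
  omega

/-- the components of `n` -/
private def comps (n : ℕ) : Finset ℕ := n.primeFactors.image (fun p => p ^ n.factorization p)

private theorem unit_pos {n p : ℕ} (hp : p ∈ n.primeFactors) : n.factorization p ≠ 0 := by
  rw [← Finsupp.mem_support_iff, Nat.support_factorization]
  exact hp

private theorem unit_inj (n : ℕ) : Set.InjOn (fun p => p ^ n.factorization p) (n.primeFactors : Set ℕ) := by
  intro p hp q hq h
  have hp' : p ∈ n.primeFactors := hp
  have hq' : q ∈ n.primeFactors := hq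
  have h1 : p ∣ q ^ n.factorization q := by
    have h2 : p ^ n.factorization p = q ^ n.factorization q := h
    rw [← h2]
    exact dvd_pow_self p (unit_pos hp')
  have h3 := (Nat.prime_of_mem_primeFactors hp').dvd_of_dvd_pow h1
  exact (Nat.prime_dvd_prime_iff_eq (Nat.prime_of_mem_primeFactors hp')
    (Nat.prime_of_mem_primeFactors hq')).1 h3

private theorem unit_prod (n : ℕ) (f : ℕ → ℕ) :
    ∏ q ∈ comps n, f q = ∏ p ∈ n.primeFactors, f (p ^ n.factorization p) := by
  unfold comps
  exact Finset.prod_image (unit_inj n)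

private theorem unit_card (n : ℕ) : (comps n).card = om n := by
  unfold comps om
  exact Finset.card_image_of_injOn (unit_inj n)

private theorem unit_ge {n q : ℕ} (hq : q ∈ comps n) : 2 ≤ q := by
  unfold comps at hq
  rw [Finset.mem_image] at hq
  obtain ⟨p, hp, rfl⟩ := hq
  have hpp := Nat.prime_of_mem_primeFactors hp
  calc 2 ≤ p := hpp.two_le
    _ = p ^ 1 := (pow_one p).symm
    _ ≤ p ^ n.factorization p := Nat.pow_le_pow_right hpp.pos (Nat.one_le_iff_ne_zero.2 (unit_pos hp))

private theorem unit_self (n : ℕ) (hn : n ≠ 0) : ∏ q ∈ comps n, q = n := by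
  rw [unit_prod n (fun q => q)]
  have h := Nat.prod_factorization_pow_eq_self hn
  rw [Finsupp.prod, Nat.support_factorization] at h
  exact h

private theorem unit_phi (n : ℕ) : ∏ q ∈ comps n, (q - 1) = phiStar n := by
  rw [unit_prod n (fun q => q - 1)]
  rfl

private theorem unit_cop {n q q' : ℕ} (hq : q ∈ comps n) (hq' : q' ∈ comps n) (hne : q ≠ q') :
    Nat.Coprime q q' := by
  unfold comps at hq hq'
  rw [Finset.mem_image] at hq hq'
  obtain ⟨p, hp, rfl⟩ := hq
  obtain ⟨p', hp', rfl⟩ := hq'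
  apply Nat.Coprime.pow
  rw [Nat.coprime_primes (Nat.prime_of_mem_primeFactors hp) (Nat.prime_of_mem_primeFactors hp')]
  rintro rfl
  exact hne rfl

/-- `n ≤ (ω(n) + 1) φ*(n)`. -/
theorem le_phiStar (n : ℕ) (hn : n ≠ 0) : n ≤ (om n + 1) * phiStar n := by
  have h := prod_le_card_succ (comps n) (fun q hq => unit_ge hq)
  rwa [unit_self n hn, unit_phi, unit_card] at h

/-- `2 ^ ω(n) ≤ n`. -/
theorem two_pow_om_le (n : ℕ) (hn : n ≠ 0) : 2 ^ om n ≤ n := by
  have h1 : 2 ^ om n ≤ ∏ q ∈ comps n, q := by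
    rw [← unit_card, ← Finset.prod_const]
    exact Finset.prod_le_prod' fun q hq => unit_ge hq
  rwa [unit_self n hn] at h1

/-- Every scale `T` contains a unitary divisor of `n ∈ Exc`, up to a factor `2 ω(n)`. -/
theorem exists_div (n : ℕ) (hn : n ∈ Exc) (T : ℕ) (hT : 1 ≤ T) (hT2 : T < 2 * om n * n) :
    ∃ D C : ℕ, n = D * C ∧ Nat.Coprime D C ∧ D ≤ T ∧ T < 2 * om n * D := by
  have h2 := unit_two_le hn
  obtain ⟨h1, ⟨k, hk⟩, -⟩ := hn
  have hn0 : n ≠ 0 := by omega
  have hk' : k * ∏ q ∈ comps n, (q - 1) = ∏ q ∈ comps n, q - 1 := by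
    rw [unit_self n hn0, unit_phi, hk, mul_comm]
  obtain ⟨t, hts, ht1, ht2⟩ := dense_prod (comps n) (fun q hq => unit_ge hq) (2 * om n) (by omega)
    (fun q hq => by
      have := comp_le (comps n) (fun q hq => unit_ge hq) (by rw [unit_card]; exact h2) k hk' q hq
      rwa [unit_card] at this) T hT (by rw [unit_self n hn0]; exact hT2)
  refine ⟨∏ q ∈ t, q, ∏ q ∈ comps n \ t, q, ?_, ?_, ht1, ht2⟩
  · rw [mul_comm, Finset.prod_sdiff hts, unit_self n hn0]
  · refine Nat.Coprime.prod_left fun q hq => Nat.Coprime.prod_right fun q' hq' => ?_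
    rw [Finset.mem_sdiff] at hq'
    exact unit_cop (hts hq) hq'.1 (fun h => hq'.2 (h ▸ hq))

end SUB
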